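import Pool.Agent.AtEq.Step

set_option autoImplicit false

/-! Any two absorbers are homeomorphic as pairs. -/

namespace Pool.Agent.AtEq

open Tower Filter Topology

theorem exists_bound (H : FH (ℕ → ℝ) (ℕ → ℝ)) (n N : ℕ) :
    ∃ N', N ≤ N' ∧ n ≤ N' ∧ (∀ x y, rel N' x y → rel n (H.h x) (H.h y)) ∧
      (∀ x y, rel N' x y → rel n (H.h.symm x) (H.h.symm y)) := by
  obtain ⟨s, hs⟩ := H.fin n
  obtain ⟨u, hu⟩ := H.fin' n
  refine ⟨max (max N n) (max s u), (le_max_left _ _).trans (le_max_left _ _),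
    (le_max_right _ _).trans (le_max_left _ _), fun x y h => hs x y ?_, fun x y h => hu x y ?_⟩
  · exact mono' _ _ _ _ ((le_max_left _ _).trans (le_max_right _ _)) h
  · exact mono' _ _ _ _ ((le_max_right _ _).trans (le_max_right _ _)) h

theorem Big.mono {N : Set ℕ} {r s : ℕ} (h : Big N r) (hrs : r ≤ s) : Big N s :=
  fun m hm => h m (hrs.trans hm)

theorem absorber_homeo (A B : Absorber) :
    ∃ G : (ℕ → ℝ) ≃ₜ (ℕ → ℝ), ∀ x, x ∈ A.Om ↔ G x ∈ B.Om := by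
  classical
  -- states
  let St := {p : FH (ℕ → ℝ) (ℕ → ℝ) × Set (ℕ → ℝ) × Set (ℕ → ℝ) × ℕ //
    Good A B p.1 p.2.1 p.2.2.1}
  have step : ∀ (n : ℕ) (p : St), ∃ p' : St,
      p.1.2.1 ⊆ p'.1.2.1 ∧ p.1.2.2.1 ⊆ p'.1.2.2.1 ∧ A.S 0 n ⊆ p'.1.2.1 ∧ B.S 0 n ⊆ p'.1.2.2.1 ∧
      (∀ x ∈ p.1.2.1, p'.1.1.h x = p.1.1.h x) ∧
      (∀ x, rel p.1.2.2.2 (p'.1.1.h x) (p.1.1.h x)) ∧
      (∀ x, rel p.1.2.2.2 (p'.1.1.h.symm x) (p.1.1.h.symm x)) ∧
      p.1.2.2.2 ≤ p'.1.2.2.2 ∧ n + 1 ≤ p'.1.2.2.2 ∧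
      (∀ x y, rel p'.1.2.2.2 x y → rel (n + 1) (p'.1.1.h x) (p'.1.1.h y)) ∧
      (∀ x y, rel p'.1.2.2.2 x y → rel (n + 1) (p'.1.1.h.symm x) (p'.1.1.h.symm y)) := by
    intro n p
    obtain ⟨H', K', L', g', h1, h2, h3, h4, h5, h6, h7⟩ := both p.2 n p.1.2.2.2
    obtain ⟨N', h8, h9, h10, h11⟩ := exists_bound H' (n + 1) p.1.2.2.2
    exact ⟨⟨(H', K', L', N'), g'⟩, h1, h2, h3, h4, h5, h6, h7, h8, h9, h10, h11⟩
  choose nxt hnxt using step
  have g0 : Good A B (FH.refl (ℕ → ℝ)) ∅ ∅ :=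
    { clK := isClosed_empty
      clL := isClosed_empty
      iff := fun x => by simp
      thK := ⟨A.Y, 0, subset_rfl, A.big, fun x hx => absurd hx (Set.notMem_empty x)⟩
      thL := ⟨B.Y, 0, subset_rfl, B.big, fun x hx => absurd hx (Set.notMem_empty x)⟩
      om := fun x hx => absurd hx (Set.notMem_empty x) }
  let p : ℕ → St := fun n => Nat.rec ⟨(FH.refl (ℕ → ℝ), ∅, ∅, 0), g0⟩ (fun n p => nxt n p) n
  have hp : ∀ n, p (n + 1) = nxt n (p n) := fun n => rfl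
  have hK : ∀ n, (p n).1.2.1 ⊆ (p (n + 1)).1.2.1 := fun n => by
    rw [hp]; exact (hnxt n (p n)).1
  have hL : ∀ n, (p n).1.2.2.1 ⊆ (p (n + 1)).1.2.2.1 := fun n => by
    rw [hp]; exact (hnxt n (p n)).2.1
  have hAS : ∀ n, A.S 0 n ⊆ (p (n + 1)).1.2.1 := fun n => by
    rw [hp]; exact (hnxt n (p n)).2.2.1
  have hBS : ∀ n, B.S 0 n ⊆ (p (n + 1)).1.2.2.1 := fun n => by
    rw [hp]; exact (hnxt n (p n)).2.2.2.1
  have hsame : ∀ n, ∀ x ∈ (p n).1.2.1, (p (n + 1)).1.1.h x = (p n).1.1.h x := fun n => by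
    rw [hp]; exact (hnxt n (p n)).2.2.2.2.1
  have h1 : ∀ n x, rel (p n).1.2.2.2 ((p (n + 1)).1.1.h x) ((p n).1.1.h x) := fun n => by
    rw [hp]; exact (hnxt n (p n)).2.2.2.2.2.1
  have h2 : ∀ n x, rel (p n).1.2.2.2 ((p (n + 1)).1.1.h.symm x) ((p n).1.1.h.symm x) :=
    fun n => by
    rw [hp]; exact (hnxt n (p n)).2.2.2.2.2.2.1
  have hmono : Monotone fun n => (p n).1.2.2.2 := monotone_nat_of_le_succ fun n => by
    rw [hp]; exact (hnxt n (p n)).2.2.2.2.2.2.2.1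
  have hge : ∀ n, n ≤ (p n).1.2.2.2 := by
    intro n
    cases n with
    | zero => exact Nat.zero_le _
    | succ n => rw [hp]; exact (hnxt n (p n)).2.2.2.2.2.2.2.2.1
  have h3 : ∀ n x y, rel (p n).1.2.2.2 x y → rel n ((p n).1.1.h x) ((p n).1.1.h y) := by
    intro n
    cases n with
    | zero => exact fun x y _ i hi => absurd hi (Nat.not_lt_zero i)
    | succ n => rw [hp]; exact (hnxt n (p n)).2.2.2.2.2.2.2.2.2.1
  have h4 : ∀ n x y, rel (p n).1.2.2.2 x y → rel n ((p n).1.1.h.symm x) ((p n).1.1.h.symm y) := by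
    intro n
    cases n with
    | zero => exact fun x y _ i hi => absurd hi (Nat.not_lt_zero i)
    | succ n => rw [hp]; exact (hnxt n (p n)).2.2.2.2.2.2.2.2.2.2
  obtain ⟨G, hG⟩ := exists_limit (fun n => (p n).1.1.h) (fun n => (p n).1.2.2.2) hmono hge h1 h2
    h3 h4
  have hKm : ∀ n m, n ≤ m → (p n).1.2.1 ⊆ (p m).1.2.1 := fun n m h =>
    monotone_nat_of_le_succ (f := fun n => (p n).1.2.1) hK h
  have hsame' : ∀ n m, n ≤ m → ∀ x ∈ (p n).1.2.1, (p m).1.1.h x = (p n).1.1.h x := by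
    intro n m h
    induction m, h using Nat.le_induction with
    | base => exact fun x _ => rfl
    | succ m hm ih => exact fun x hx => (hsame m x (hKm n m hm hx)).trans (ih x hx)
  have hGK : ∀ n, ∀ x ∈ (p n).1.2.1, G x = (p n).1.1.h x := by
    intro n x hx
    funext i
    have e1 := hG (max n (i + 1)) x i
      ((Nat.lt_succ_self i).trans_le ((le_max_right n (i + 1)).trans (hge _)))
    rw [e1]
    exact congrFun (hsame' n _ (le_max_left _ _) x hx) i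
  refine ⟨G, fun x => ⟨fun hx => ?_, fun hx => ?_⟩⟩
  · obtain ⟨n, hn⟩ := hx 0
    have hxK := hAS n hn
    rw [hGK (n + 1) x hxK]
    exact ((p (n + 1)).2.om x hxK).1 hx
  · obtain ⟨n, hn⟩ := hx 0
    have hL' := hBS n hn
    set y := (p (n + 1)).1.1.h.symm (G x) with hy
    have hyK : y ∈ (p (n + 1)).1.2.1 := by
      rw [(p (n + 1)).2.iff, hy, Homeomorph.apply_symm_apply]
      exact hL'
    have e1 : G y = G x := by rw [hGK (n + 1) y hyK, hy, Homeomorph.apply_symm_apply]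
    have e2 : y = x := G.injective e1
    rw [e2] at hyK
    rw [hGK (n + 1) x hyK] at hx
    exact ((p (n + 1)).2.om x hyK).2 hx

end Pool.Agent.AtEq
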