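import Pool.Agent.AtEq.Tower

set_option autoImplicit false

/-! Finitary distance functions, ramps and the convergence code. -/

namespace Pool.Agent.AtEq

open Tower Filter Topology Finset

/-- Restriction to the first `t` coordinates. -/
def res (t : ℕ) (z : ℕ → ℝ) : Fin t → ℝ := fun n => z n

theorem continuous_res (t : ℕ) : Continuous (res t) :=
  continuous_pi fun n => continuous_apply (n : ℕ)

theorem res_congr {t : ℕ} {x y : ℕ → ℝ} (h : rel t x y) : res t x = res t y :=
  funext fun n => h n n.2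

/-- Truncated finitary distance to a set. -/
noncomputable def del (t : ℕ) (S : Set (ℕ → ℝ)) (z : ℕ → ℝ) : ℝ :=
  (min 1 (Metric.infEDist (res t z) (res t '' S))).toReal

theorem del_ne_top (t : ℕ) (S : Set (ℕ → ℝ)) (z : ℕ → ℝ) :
    min 1 (Metric.infEDist (res t z) (res t '' S)) ≠ ⊤ :=
  ne_top_of_le_ne_top ENNReal.one_ne_top (min_le_left _ _)

theorem del_nonneg (t : ℕ) (S : Set (ℕ → ℝ)) (z : ℕ → ℝ) : 0 ≤ del t S z :=
  ENNReal.toReal_nonneg

theorem del_congr {t : ℕ} (S : Set (ℕ → ℝ)) {x y : ℕ → ℝ} (h : rel t x y) :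
    del t S x = del t S y := by
  rw [del, del, res_congr h]

theorem continuous_del (t : ℕ) (S : Set (ℕ → ℝ)) : Continuous (del t S) := by
  have h1 : Continuous fun z : ℕ → ℝ => min 1 (Metric.infEDist (res t z) (res t '' S)) :=
    continuous_const.min (Metric.continuous_infEDist.comp (continuous_res t))
  exact (ENNReal.continuousOn_toReal.comp_continuous h1 fun z => del_ne_top t S z)

theorem del_zero {t : ℕ} {S : Set (ℕ → ℝ)} {z : ℕ → ℝ} (hz : z ∈ S) : del t S z = 0 := by
  rw [del, Metric.infEDist_zero_of_mem (Set.mem_image_of_mem _ hz)]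
  simp

theorem del_mono {s t : ℕ} (hst : s ≤ t) (S : Set (ℕ → ℝ)) (z : ℕ → ℝ) :
    del s S z ≤ del t S z := by
  refine ENNReal.toReal_mono (del_ne_top _ _ _) (min_le_min le_rfl ?_)
  refine Metric.le_infEDist.2 ?_
  rintro _ ⟨y, hy, rfl⟩
  refine (Metric.infEDist_le_edist_of_mem (Set.mem_image_of_mem _ hy)).trans ?_
  rw [edist_pi_def, edist_pi_def]
  refine Finset.sup_le fun b _ => ?_
  exact Finset.le_sup (f := fun b : Fin t => edist (res t z b) (res t y b))
    (Finset.mem_univ (⟨b, b.2.trans_le hst⟩ : Fin t))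

theorem del_pos {S : Set (ℕ → ℝ)} (hS : IsClosed S) {z : ℕ → ℝ} (hz : z ∉ S) :
    ∃ t, 0 < del t S z := by
  by_contra hcon
  push Not at hcon
  have h0 : ∀ t, ∃ y ∈ S, ∀ i < t, |y i - z i| ≤ 1 / ((t : ℝ) + 1) := by
    intro t
    have h1 : del t S z = 0 := le_antisymm (hcon t) (del_nonneg _ _ _)
    have h2 : min 1 (Metric.infEDist (res t z) (res t '' S)) = 0 := by
      rcases (ENNReal.toReal_eq_zero_iff _).1 h1 with h | h
      · exact h
      · exact absurd h (del_ne_top t S z)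
    have h3 : Metric.infEDist (res t z) (res t '' S) = 0 := by
      rcases min_choice (1 : ENNReal) (Metric.infEDist (res t z) (res t '' S)) with h | h
      · rw [h] at h2; exact absurd h2 one_ne_zero
      · rw [h] at h2; exact h2
    have hpos : (0 : ℝ) < 1 / ((t : ℝ) + 1) := by positivity
    have h4 : Metric.infEDist (res t z) (res t '' S) < ENNReal.ofReal (1 / ((t : ℝ) + 1)) := by
      rw [h3]; exact ENNReal.ofReal_pos.2 hpos
    obtain ⟨_, ⟨y, hy, rfl⟩, hlt⟩ := Metric.infEDist_lt_iff.1 h4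
    refine ⟨y, hy, fun i hi => ?_⟩
    have h5 : dist (res t z) (res t y) < 1 / ((t : ℝ) + 1) := by
      rw [edist_dist] at hlt
      exact (ENNReal.ofReal_lt_ofReal_iff hpos).1 hlt
    have h6 : dist (res t z ⟨i, hi⟩) (res t y ⟨i, hi⟩) ≤ dist (res t z) (res t y) :=
      dist_le_pi_dist _ _ _
    rw [dist_comm, Real.dist_eq] at h6
    exact h6.trans h5.le
  choose y hyS hy using h0
  apply hz
  refine hS.mem_of_tendsto (f := y) (b := atTop) ?_ (Eventually.of_forall hyS)
  rw [tendsto_pi_nhds]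
  intro i
  have hlim : Tendsto (fun t : ℕ => 1 / ((t : ℝ) + 1)) atTop (𝓝 0) :=
    tendsto_one_div_add_atTop_nhds_zero_nat
  refine tendsto_iff_dist_tendsto_zero.2 (squeeze_zero' (Eventually.of_forall fun t => dist_nonneg)
    ?_ hlim)
  filter_upwards [eventually_gt_atTop i] with t ht
  rw [Real.dist_eq]
  exact hy t i ht

/-- A function growing from `0` (at `i ≤ s`) to `1`, unless `z ∈ S`, when it is zero. -/
noncomputable def ramp (s : ℕ) (S : Set (ℕ → ℝ)) (i : ℕ) (z : ℕ → ℝ) : ℝ :=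
  min 1 (((i - s : ℕ) : ℝ) * del i S z)

theorem ramp_nonneg (s : ℕ) (S : Set (ℕ → ℝ)) (i : ℕ) (z : ℕ → ℝ) : 0 ≤ ramp s S i z :=
  le_min zero_le_one (mul_nonneg (Nat.cast_nonneg _) (del_nonneg _ _ _))

theorem ramp_le_one (s : ℕ) (S : Set (ℕ → ℝ)) (i : ℕ) (z : ℕ → ℝ) : ramp s S i z ≤ 1 :=
  min_le_left _ _

theorem ramp_start {s i : ℕ} (h : i ≤ s) (S : Set (ℕ → ℝ)) (z : ℕ → ℝ) : ramp s S i z = 0 := by
  simp [ramp, Nat.sub_eq_zero_of_le h]

theorem ramp_zero {s i : ℕ} {S : Set (ℕ → ℝ)} {z : ℕ → ℝ} (h : z ∈ S) : ramp s S i z = 0 := by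
  simp [ramp, del_zero h]

theorem ramp_mono {s i j : ℕ} (hij : i ≤ j) (S : Set (ℕ → ℝ)) (z : ℕ → ℝ) :
    ramp s S i z ≤ ramp s S j z := by
  refine min_le_min le_rfl (mul_le_mul ?_ (del_mono hij S z) (del_nonneg _ _ _)
    (Nat.cast_nonneg _))
  exact_mod_cast Nat.sub_le_sub_right hij s

theorem ramp_congr {s i : ℕ} (S : Set (ℕ → ℝ)) {x y : ℕ → ℝ} (h : rel i x y) :
    ramp s S i x = ramp s S i y := by
  rw [ramp, ramp, del_congr S h]

theorem continuous_ramp (s : ℕ) (S : Set (ℕ → ℝ)) (i : ℕ) : Continuous (ramp s S i) :=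
  continuous_const.min (continuous_const.mul (continuous_del i S))

theorem ramp_eventually {S : Set (ℕ → ℝ)} (hS : IsClosed S) {z : ℕ → ℝ} (hz : z ∉ S) (s : ℕ) :
    ∃ m, ∀ i, m ≤ i → ramp s S i z = 1 := by
  obtain ⟨t, ht⟩ := del_pos hS hz
  obtain ⟨n, hn⟩ := exists_nat_gt (1 / del t S z)
  refine ⟨max t (n + s), fun i hi => min_eq_left ?_⟩
  have h1 : (n : ℝ) ≤ ((i - s : ℕ) : ℝ) := by
    have : n ≤ i - s := by have := (le_max_right t (n + s)).trans hi; omega
    exact_mod_cast this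
  have h2 : del t S z ≤ del i S z := del_mono ((le_max_left _ _).trans hi) S z
  have h3 : 1 < n * del t S z := by
    have := (div_lt_iff₀ ht).1 hn
    linarith
  have h4 : (n : ℝ) * del t S z ≤ ((i - s : ℕ) : ℝ) * del i S z :=
    mul_le_mul h1 h2 ht.le (Nat.cast_nonneg _)
  linarith

/-- The spike marking the place where the ramp rises. -/
noncomputable def spike (s : ℕ) (S : Set (ℕ → ℝ)) (i : ℕ) (z : ℕ → ℝ) : ℝ :=
  ramp s S i z * (1 - ramp s S (i - 1) z)

theorem spike_nonneg (s : ℕ) (S : Set (ℕ → ℝ)) (i : ℕ) (z : ℕ → ℝ) : 0 ≤ spike s S i z :=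
  mul_nonneg (ramp_nonneg _ _ _ _) (sub_nonneg.2 (ramp_le_one _ _ _ _))

theorem spike_zero {s i : ℕ} {S : Set (ℕ → ℝ)} {z : ℕ → ℝ} (h : z ∈ S) : spike s S i z = 0 := by
  simp [spike, ramp_zero h]

theorem spike_congr {s i : ℕ} (S : Set (ℕ → ℝ)) {x y : ℕ → ℝ} (h : rel i x y) :
    spike s S i x = spike s S i y := by
  rw [spike, spike, ramp_congr S h, ramp_congr S (mono' _ _ _ _ (Nat.sub_le i 1) h)]

theorem continuous_spike (s : ℕ) (S : Set (ℕ → ℝ)) (i : ℕ) : Continuous (spike s S i) :=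
  (continuous_ramp s S i).mul (continuous_const.sub (continuous_ramp s S (i - 1)))

theorem spike_eventually {S : Set (ℕ → ℝ)} (hS : IsClosed S) (z : ℕ → ℝ) (s : ℕ) :
    ∃ m, ∀ i, m ≤ i → spike s S i z = 0 := by
  by_cases hz : z ∈ S
  · exact ⟨0, fun i _ => spike_zero hz⟩
  · obtain ⟨m, hm⟩ := ramp_eventually hS hz s
    refine ⟨m + 1, fun i hi => ?_⟩
    rw [spike, hm (i - 1) (by omega)]
    simp

theorem spike_large {S : Set (ℕ → ℝ)} (hS : IsClosed S) {z : ℕ → ℝ} (hz : z ∉ S) (s : ℕ) :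
    ∃ i, s < i ∧ 1 / 4 ≤ spike s S i z := by
  obtain ⟨m, hm⟩ := ramp_eventually hS hz s
  have hex : ∃ i, 1 / 2 ≤ ramp s S i z := ⟨m, by rw [hm m le_rfl]; norm_num⟩
  classical
  let i := Nat.find hex
  have hi : 1 / 2 ≤ ramp s S i z := Nat.find_spec hex
  have hsi : s < i := by
    by_contra hle
    rw [ramp_start (not_lt.1 hle)] at hi
    norm_num at hi
  have hi' : ramp s S (i - 1) z < 1 / 2 := by
    have := Nat.find_min hex (m := i - 1) (by omega)
    exact not_le.1 this
  refine ⟨i, hsi, ?_⟩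
  rw [spike]
  nlinarith

/-- The convergence code. -/
noncomputable def wsum (r : ℕ) (T : ℕ → ℕ → Set (ℕ → ℝ)) (i : ℕ) (z : ℕ → ℝ) : ℝ :=
  if i < r then 0 else
    ∑ k ∈ range (i + 1), (1 / 2 : ℝ) ^ k * min 1 (∑ s ∈ range (i + 1), spike s (T k s) i z)

theorem wsum_start {r i : ℕ} (h : i < r) (T : ℕ → ℕ → Set (ℕ → ℝ)) (z : ℕ → ℝ) :
    wsum r T i z = 0 := by simp [wsum, h]

theorem wsum_congr {r i : ℕ} (T : ℕ → ℕ → Set (ℕ → ℝ)) {x y : ℕ → ℝ} (h : rel i x y) :
    wsum r T i x = wsum r T i y := by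
  rw [wsum, wsum]
  congr 1
  refine sum_congr rfl fun k _ => ?_
  congr 2
  exact sum_congr rfl fun s _ => spike_congr _ h

theorem continuous_wsum (r : ℕ) (T : ℕ → ℕ → Set (ℕ → ℝ)) (i : ℕ) : Continuous (wsum r T i) := by
  unfold wsum
  by_cases h : i < r
  · simpa only [h, if_true] using continuous_const
  · simp only [h, if_false]
    refine continuous_finsetSum _ fun k _ => continuous_const.mul (continuous_const.min ?_)
    exact continuous_finsetSum _ fun s _ => continuous_spike _ _ _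

theorem wsum_zero {r i : ℕ} {T : ℕ → ℕ → Set (ℕ → ℝ)} {z : ℕ → ℝ} (h : ∀ k s, z ∈ T k s) :
    wsum r T i z = 0 := by
  rw [wsum]
  split_ifs
  · rfl
  · refine sum_eq_zero fun k _ => ?_
    rw [sum_eq_zero fun s _ => spike_zero (h k s)]
    simp

theorem inner_nonneg (T : ℕ → ℕ → Set (ℕ → ℝ)) (i k : ℕ) (z : ℕ → ℝ) :
    0 ≤ min 1 (∑ s ∈ range (i + 1), spike s (T k s) i z) :=
  le_min zero_le_one (sum_nonneg fun _ _ => spike_nonneg _ _ _ _)

theorem wsum_nonneg (r i : ℕ) (T : ℕ → ℕ → Set (ℕ → ℝ)) (z : ℕ → ℝ) : 0 ≤ wsum r T i z := by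
  rw [wsum]
  split_ifs
  · exact le_rfl
  · exact sum_nonneg fun k _ => mul_nonneg (by positivity) (inner_nonneg T i k z)

theorem tendsto_wsum_iff (r : ℕ) {T : ℕ → ℕ → Set (ℕ → ℝ)} (hT : ∀ k s, IsClosed (T k s))
    (hmono : ∀ k s s', s ≤ s' → T k s ⊆ T k s') (z : ℕ → ℝ) :
    Tendsto (fun i => wsum r T i z) atTop (𝓝 0) ↔ ∀ k, ∃ s, z ∈ T k s := by
  constructor
  · intro h k
    by_contra hcon
    push Not at hcon
    have hpos : (0 : ℝ) < (1 / 2) ^ k * (1 / 4) := by positivity
    have hev := (tendsto_order.1 h).2 _ hpos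
    obtain ⟨m, hm⟩ := eventually_atTop.1 hev
    obtain ⟨i, hi, hsp⟩ := spike_large (hT k (max (max m k) r)) (hcon (max (max m k) r))
      (max (max m k) r)
    have hmi : m ≤ i := by omega
    have hki : k ≤ i := by omega
    have hri : ¬ i < r := by omega
    have hlt := hm i hmi
    rw [wsum, if_neg hri] at hlt
    have h1 : (1 / 2 : ℝ) ^ k * min 1 (∑ s ∈ range (i + 1), spike s (T k s) i z) ≤
        ∑ k ∈ range (i + 1), (1 / 2 : ℝ) ^ k *
          min 1 (∑ s ∈ range (i + 1), spike s (T k s) i z) :=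
      single_le_sum (f := fun k => (1 / 2 : ℝ) ^ k *
          min 1 (∑ s ∈ range (i + 1), spike s (T k s) i z))
        (fun k _ => mul_nonneg (by positivity) (inner_nonneg T i k z))
        (mem_range.2 (by omega))
    have h2 : (1 / 4 : ℝ) ≤ min 1 (∑ s ∈ range (i + 1), spike s (T k s) i z) := by
      refine le_min (by norm_num) (hsp.trans ?_)
      exact single_le_sum (f := fun s => spike s (T k s) i z)
        (fun s _ => spike_nonneg _ _ _ _) (mem_range.2 (by omega))
    have h3 : (1 / 2 : ℝ) ^ k * (1 / 4) ≤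
        (1 / 2 : ℝ) ^ k * min 1 (∑ s ∈ range (i + 1), spike s (T k s) i z) :=
      mul_le_mul_of_nonneg_left h2 (by positivity)
    linarith
  · intro h
    rw [Metric.tendsto_atTop]
    intro ε hε
    obtain ⟨K, hK⟩ := exists_pow_lt_of_lt_one (show 0 < ε / 2 by linarith)
      (show (1 / 2 : ℝ) < 1 by norm_num)
    -- for each k the inner sum vanishes eventually
    have hin : ∀ k, ∃ m, ∀ i, m ≤ i → (∑ s ∈ range (i + 1), spike s (T k s) i z) = 0 := by
      intro k
      obtain ⟨s0, hs0⟩ := h k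
      choose m hm using fun s => spike_eventually (hT k s) z s
      refine ⟨(range s0).sup m, fun i hi => sum_eq_zero fun s _ => ?_⟩
      rcases lt_or_ge s s0 with hs | hs
      · exact hm s i ((le_sup (f := m) (mem_range.2 hs)).trans hi)
      · exact spike_zero (hmono k s0 s hs hs0)
    choose m hm using hin
    refine ⟨(range K).sup m, fun i hi => ?_⟩
    rw [Real.dist_eq, sub_zero, abs_of_nonneg (wsum_nonneg _ _ _ _), wsum]
    split_ifs
    · exact hε
    · have hterm : ∀ k ∈ range (i + 1), (1 / 2 : ℝ) ^ k *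
          min 1 (∑ s ∈ range (i + 1), spike s (T k s) i z) ≤
          if K ≤ k then (1 / 2 : ℝ) ^ k else 0 := by
        intro k _
        split_ifs with hk
        · exact mul_le_of_le_one_right (by positivity) (min_le_left _ _)
        · have hk' : k < K := not_le.1 hk
          rw [hm k i ((le_sup (f := m) (mem_range.2 hk')).trans hi)]
          simp
      refine (sum_le_sum hterm).trans_lt ?_
      have hsum : ∑ k ∈ range (i + 1), (if K ≤ k then (1 / 2 : ℝ) ^ k else 0) ≤
          2 * (1 / 2 : ℝ) ^ K := by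
        have hgen : ∀ n, ∑ k ∈ range n, (if K ≤ k then (1 / 2 : ℝ) ^ k else 0) ≤
            if K ≤ n then 2 * (1 / 2 : ℝ) ^ K - 2 * (1 / 2 : ℝ) ^ n else 0 := by
          intro n
          induction n with
          | zero =>
            split_ifs with h0
            · have : K = 0 := by omega
              subst this; simp
            · simp
          | succ n ih =>
            rw [sum_range_succ]
            rcases lt_trichotomy K (n + 1) with hlt | heq | hgt
            · have h1 : K ≤ n := by omega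
              rw [if_pos h1] at ih
              rw [if_pos h1, if_pos (by omega)]
              have : (1 / 2 : ℝ) ^ (n + 1) = (1 / 2 : ℝ) ^ n * (1 / 2) := pow_succ _ _
              linarith
            · subst heq
              rw [if_neg (by omega)] at ih
              rw [if_neg (by omega), if_pos (by omega)]
              linarith
            · rw [if_neg (by omega)] at ih
              rw [if_neg (by omega), if_neg (by omega)]
              linarith
        refine (hgen (i + 1)).trans ?_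
        split_ifs
        · have : (0 : ℝ) < (1 / 2) ^ (i + 1) := by positivity
          linarith
        · positivity
      linarith

end Pool.Agent.AtEq
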