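import Mathlib

set_option autoImplicit false

/-! A self-homeomorphism of a countable power of the line which pushes small cubes off a
coordinate. -/

namespace Pool.Agent.AtEq

open Filter Topology

/-- Clamping to `[-r, r]`. -/
noncomputable def clamp (r x : ℝ) : ℝ := max (-r) (min r x)

theorem continuous_clamp (r : ℝ) : Continuous (clamp r) := by
  unfold clamp; fun_prop

theorem abs_clamp_le {r : ℝ} (hr : 0 ≤ r) (x : ℝ) : |clamp r x| ≤ r := by
  unfold clamp
  rw [abs_le]
  exact ⟨le_max_left _ _, max_le (by linarith) (min_le_left _ _)⟩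

theorem clamp_of_abs_le {r x : ℝ} (h : |x| ≤ r) : clamp r x = x := by
  obtain ⟨h1, h2⟩ := abs_le.1 h
  rw [clamp, min_eq_right h2, max_eq_right h1]

theorem clamp_mono (r : ℝ) {x y : ℝ} (h : x ≤ y) : clamp r x ≤ clamp r y :=
  max_le_max le_rfl (min_le_min le_rfl h)

theorem clamp_lip {r x y : ℝ} (hr : 0 ≤ r) (h : x ≤ y) : clamp r y - clamp r x ≤ y - x := by
  unfold clamp
  rcases le_total r x with h1 | h1 <;> rcases le_total r y with h2 | h2 <;>
  rcases le_total (-r) x with h3 | h3 <;> rcases le_total (-r) y with h4 | h4 <;>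
  simp only [min_eq_left, min_eq_right, max_eq_left, max_eq_right, h1, h2, h3, h4,
    neg_le_self hr] <;> linarith

/-- The size of the step. -/
noncomputable def sz (j : ℕ) : ℝ := 2 * (1 / 4) ^ j

theorem sz_pos (j : ℕ) : 0 < sz j := by unfold sz; positivity

noncomputable def fA (j : ℕ) (a b : ℝ) : ℝ :=
  (a - clamp (sz j) (b / 4 ^ (j + 1))) -
    clamp (sz j) (b / 4 ^ (j + 1) + clamp (sz j) (a - clamp (sz j) (b / 4 ^ (j + 1))))

noncomputable def fB (j : ℕ) (a b : ℝ) : ℝ :=
  4 ^ (j + 1) * (b / 4 ^ (j + 1) + clamp (sz j) (a - clamp (sz j) (b / 4 ^ (j + 1))))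

noncomputable def gA (j : ℕ) (a b : ℝ) : ℝ :=
  (a + clamp (sz j) (b / 4 ^ (j + 1))) +
    clamp (sz j) (b / 4 ^ (j + 1) - clamp (sz j) (a + clamp (sz j) (b / 4 ^ (j + 1))))

noncomputable def gB (j : ℕ) (a b : ℝ) : ℝ :=
  4 ^ (j + 1) * (b / 4 ^ (j + 1) - clamp (sz j) (a + clamp (sz j) (b / 4 ^ (j + 1))))

theorem fB_div (j : ℕ) (a b : ℝ) : fB j a b / 4 ^ (j + 1) =
    b / 4 ^ (j + 1) + clamp (sz j) (a - clamp (sz j) (b / 4 ^ (j + 1))) := by
  unfold fB; field_simp

theorem gB_div (j : ℕ) (a b : ℝ) : gB j a b / 4 ^ (j + 1) =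
    b / 4 ^ (j + 1) - clamp (sz j) (a + clamp (sz j) (b / 4 ^ (j + 1))) := by
  unfold gB; field_simp

theorem gA_f (j : ℕ) (a b : ℝ) : gA j (fA j a b) (fB j a b) = a := by
  rw [gA, fB_div, fA]
  ring_nf

theorem gB_f (j : ℕ) (a b : ℝ) : gB j (fA j a b) (fB j a b) = b := by
  have h : (4 : ℝ) ^ (j + 1) ≠ 0 := by positivity
  rw [gB, fB_div, fA]
  simp only [sub_add_cancel, add_sub_cancel_right]
  field_simp

theorem fA_g (j : ℕ) (a b : ℝ) : fA j (gA j a b) (gB j a b) = a := by
  rw [fA, gB_div, gA]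
  simp only [add_sub_cancel_right, sub_add_cancel]

theorem fB_g (j : ℕ) (a b : ℝ) : fB j (gA j a b) (gB j a b) = b := by
  have h : (4 : ℝ) ^ (j + 1) ≠ 0 := by positivity
  rw [fB, gB_div, gA]
  simp only [add_sub_cancel_right, sub_add_cancel]
  field_simp

theorem abs_fA_sub (j : ℕ) (a b : ℝ) : |fA j a b - a| ≤ 4 * (1 / 4) ^ j := by
  have h1 := abs_clamp_le (sz_pos j).le (b / 4 ^ (j + 1))
  have h2 := abs_clamp_le (sz_pos j).le
    (b / 4 ^ (j + 1) + clamp (sz j) (a - clamp (sz j) (b / 4 ^ (j + 1))))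
  rw [abs_le] at *
  have h3 : sz j = 2 * (1 / 4) ^ j := rfl
  unfold fA
  constructor <;> linarith [h1.1, h1.2, h2.1, h2.2]

theorem abs_gA_sub (j : ℕ) (a b : ℝ) : |gA j a b - a| ≤ 4 * (1 / 4) ^ j := by
  have h1 := abs_clamp_le (sz_pos j).le (b / 4 ^ (j + 1))
  have h2 := abs_clamp_le (sz_pos j).le
    (b / 4 ^ (j + 1) - clamp (sz j) (a + clamp (sz j) (b / 4 ^ (j + 1))))
  rw [abs_le] at *
  have h3 : sz j = 2 * (1 / 4) ^ j := rfl
  unfold gA
  constructor <;> linarith [h1.1, h1.2, h2.1, h2.2]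

theorem gA_lip (j : ℕ) (a a' b : ℝ) : |gA j a b - gA j a' b| ≤ |a - a'| := by
  wlog h : a' ≤ a generalizing a a'
  · rw [abs_sub_comm, abs_sub_comm a]
    exact this a' a (le_of_not_ge h)
  set c := clamp (sz j) (b / 4 ^ (j + 1)) with hc
  have h0 := (sz_pos j).le
  have h1 : clamp (sz j) (a' + c) ≤ clamp (sz j) (a + c) := clamp_mono _ (by linarith)
  have h2 : clamp (sz j) (a + c) - clamp (sz j) (a' + c) ≤ (a + c) - (a' + c) :=
    clamp_lip h0 (by linarith)
  have h3 : clamp (sz j) (b / 4 ^ (j + 1) - clamp (sz j) (a + c)) ≤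
      clamp (sz j) (b / 4 ^ (j + 1) - clamp (sz j) (a' + c)) := clamp_mono _ (by linarith)
  have h4 := clamp_lip h0 (show b / 4 ^ (j + 1) - clamp (sz j) (a + c) ≤
    b / 4 ^ (j + 1) - clamp (sz j) (a' + c) by linarith)
  rw [abs_of_nonneg (show 0 ≤ a - a' by linarith), abs_le]
  unfold gA
  rw [← hc]
  constructor <;> linarith

theorem fA_small (j : ℕ) {a b : ℝ} (ha : |a| ≤ (1 / 4) ^ j) (hb : |b| ≤ 1) :
    fA j a b = - (b / 4 ^ (j + 1)) ∧ fB j a b = 4 ^ (j + 1) * a := by
  have h1 : |b / 4 ^ (j + 1)| ≤ (1 / 4) ^ j * (1 / 4) := by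
    rw [abs_div, abs_of_pos (show (0 : ℝ) < 4 ^ (j + 1) by positivity), div_le_iff₀ (by positivity)]
    have : (1 / 4 : ℝ) ^ j * (1 / 4) * 4 ^ (j + 1) = 1 := by
      rw [← pow_succ, ← mul_pow]; norm_num
    rw [this]; exact hb
  have hp : (0 : ℝ) < (1 / 4) ^ j := by positivity
  have hsz : sz j = 2 * (1 / 4) ^ j := rfl
  rw [abs_le] at h1 ha
  have c1 : clamp (sz j) (b / 4 ^ (j + 1)) = b / 4 ^ (j + 1) :=
    clamp_of_abs_le (by rw [abs_le, hsz]; constructor <;> linarith [h1.1, h1.2])
  have c2 : clamp (sz j) (a - b / 4 ^ (j + 1)) = a - b / 4 ^ (j + 1) :=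
    clamp_of_abs_le (by rw [abs_le, hsz]; constructor <;> linarith [h1.1, h1.2, ha.1, ha.2])
  have c3 : clamp (sz j) a = a :=
    clamp_of_abs_le (by rw [abs_le, hsz]; constructor <;> linarith [ha.1, ha.2])
  constructor
  · rw [fA, c1, c2, add_sub_cancel, c3]; ring
  · rw [fB, c1, c2, add_sub_cancel]

theorem continuous_fA (j : ℕ) : Continuous fun p : ℝ × ℝ => fA j p.1 p.2 := by
  have := continuous_clamp (sz j)
  unfold fA; fun_prop

theorem continuous_fB (j : ℕ) : Continuous fun p : ℝ × ℝ => fB j p.1 p.2 := by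
  have := continuous_clamp (sz j)
  unfold fB; fun_prop

theorem continuous_gA (j : ℕ) : Continuous fun p : ℝ × ℝ => gA j p.1 p.2 := by
  have := continuous_clamp (sz j)
  unfold gA; fun_prop

theorem continuous_gB (j : ℕ) : Continuous fun p : ℝ × ℝ => gB j p.1 p.2 := by
  have := continuous_clamp (sz j)
  unfold gB; fun_prop

theorem exists_cont_lim {X : Type} [TopologicalSpace X] (s : ℕ → X → ℝ)
    (hs : ∀ n, Continuous (s n)) (u : ℕ → ℝ) (hu : Summable u)
    (h : ∀ n x, |s (n + 1) x - s n x| ≤ u n) :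
    ∃ l : X → ℝ, Continuous l ∧ ∀ x, Tendsto (fun n => s n x) atTop (𝓝 (l x)) := by
  refine ⟨fun x => s 0 x + ∑' n, (s (n + 1) x - s n x), ?_, ?_⟩
  · refine (hs 0).add (continuous_tsum (fun n => (hs (n + 1)).sub (hs n)) hu ?_)
    exact fun n x => h n x
  · intro x
    have h1 : Summable fun n => s (n + 1) x - s n x :=
      Summable.of_norm_bounded hu (fun n => h n x)
    have h2 := h1.hasSum.tendsto_sum_nat
    have h3 : ∀ n, ∑ i ∈ Finset.range n, (s (i + 1) x - s i x) = s n x - s 0 x := fun n =>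
      Finset.sum_range_sub (fun n => s n x) n
    simp only [h3] at h2
    have h4 := h2.const_add (s 0 x)
    simpa using h4

/-- The running coordinate. -/
noncomputable def aseq (y : Option ℕ → ℝ) : ℕ → ℝ
  | 0 => y none
  | j + 1 => fA j (aseq y j) (y (some j))

/-- Backward iterates. -/
noncomputable def Phi (b : ℕ → ℝ) (α : ℝ) : ℕ → ℕ → ℝ
  | 0, _ => α
  | n + 1, j => gA j (Phi b α n (j + 1)) (b j)

theorem continuous_aseq (j : ℕ) : Continuous fun y : Option ℕ → ℝ => aseq y j := by
  induction j with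
  | zero => exact continuous_apply none
  | succ j ih =>
    change Continuous fun y : Option ℕ → ℝ => fA j (aseq y j) (y (some j))
    exact (continuous_fA j).comp (ih.prodMk (continuous_apply (some j)))

theorem continuous_Phi (n : ℕ) : ∀ j, Continuous fun p : ℝ × (ℕ → ℝ) => Phi p.2 p.1 n j := by
  induction n with
  | zero => exact fun j => continuous_fst
  | succ n ih =>
    intro j
    change Continuous fun p : ℝ × (ℕ → ℝ) => gA j (Phi p.2 p.1 n (j + 1)) (p.2 j)
    exact (continuous_gA j).comp ((ih (j + 1)).prodMk ((continuous_apply j).comp continuous_snd))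

theorem summable_four : Summable fun n : ℕ => 4 * (1 / 4 : ℝ) ^ n :=
  (summable_geometric_of_lt_one (by norm_num) (by norm_num)).mul_left 4

theorem Phi_step (b : ℕ → ℝ) (α : ℝ) (n : ℕ) : ∀ j,
    |Phi b α (n + 1) j - Phi b α n j| ≤ 4 * (1 / 4) ^ (j + n) := by
  induction n with
  | zero => exact fun j => abs_gA_sub j α (b j)
  | succ n ih =>
    intro j
    refine (gA_lip j _ _ (b j)).trans ((ih (j + 1)).trans (le_of_eq ?_))
    rw [show j + 1 + n = j + (n + 1) by omega]

theorem exists_row : ∃ h : (Option ℕ → ℝ) ≃ₜ ℝ × (ℕ → ℝ), ∀ ε : ℝ, ε ≤ 1 → ∀ y : Option ℕ → ℝ,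
    ((∀ o, |y o| ≤ ε) ↔ ((h y).1 = 0 ∧ ∀ j, |(h y).2 j| ≤ 4 * ε)) := by
  obtain ⟨al, hal, hlim⟩ := exists_cont_lim (fun j (y : Option ℕ → ℝ) => aseq y j)
    continuous_aseq _ summable_four (fun j y => abs_fA_sub j (aseq y j) (y (some j)))
  have hPex : ∀ j, ∃ l : ℝ × (ℕ → ℝ) → ℝ, Continuous l ∧
      ∀ p, Tendsto (fun n => Phi p.2 p.1 n j) atTop (𝓝 (l p)) := by
    intro j
    refine exists_cont_lim (fun n (p : ℝ × (ℕ → ℝ)) => Phi p.2 p.1 n j)
      (fun n => continuous_Phi n j) (fun n => 4 * (1 / 4) ^ n) summable_four ?_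
    intro n p
    refine (Phi_step p.2 p.1 n j).trans ?_
    have : (1 / 4 : ℝ) ^ (j + n) ≤ (1 / 4) ^ n :=
      pow_le_pow_of_le_one (by norm_num) (by norm_num) (by omega)
    linarith
  choose A hA hAlim using hPex
  -- recursion for `A`
  have hArec : ∀ j p, A j p = gA j (A (j + 1) p) (p.2 j) := by
    intro j p
    have h1 : Tendsto (fun n => Phi p.2 p.1 (n + 1) j) atTop (𝓝 (A j p)) :=
      (hAlim j p).comp (tendsto_add_atTop_nat 1)
    have h2 : Tendsto (fun n => gA j (Phi p.2 p.1 n (j + 1)) (p.2 j)) atTop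
        (𝓝 (gA j (A (j + 1) p) (p.2 j))) :=
      ((continuous_gA j).tendsto (A (j + 1) p, p.2 j)).comp
        ((hAlim (j + 1) p).prodMk_nhds tendsto_const_nhds)
    exact tendsto_nhds_unique h1 h2
  -- `A j p` tends to `p.1`
  have hAto : ∀ p, Tendsto (fun j => A j p) atTop (𝓝 p.1) := by
    intro p
    have hb : ∀ j n, |Phi p.2 p.1 n j - p.1| ≤ 8 * (1 / 4) ^ j - 8 * (1 / 4) ^ (j + n) := by
      intro j n
      induction n with
      | zero => simp [Phi]
      | succ n ih =>
        have h1 := Phi_step p.2 p.1 n j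
        have h2 : Phi p.2 p.1 (n + 1) j - p.1 =
          (Phi p.2 p.1 (n + 1) j - Phi p.2 p.1 n j) + (Phi p.2 p.1 n j - p.1) := by ring
        rw [h2]
        refine (abs_add_le _ _).trans ?_
        have h3 : (1 / 4 : ℝ) ^ (j + (n + 1)) = (1 / 4) ^ (j + n) * (1 / 4) := by
          rw [← pow_succ]; rfl
        have h4 : (0 : ℝ) < (1 / 4) ^ (j + n) := by positivity
        rw [h3]; linarith
    have hb' : ∀ j, |A j p - p.1| ≤ 8 * (1 / 4) ^ j := by
      intro j
      refine le_of_tendsto ((hAlim j p).sub_const p.1).abs (Eventually.of_forall fun n => ?_)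
      refine (hb j n).trans ?_
      have h4 : (0 : ℝ) < (1 / 4) ^ (j + n) := by positivity
      linarith
    have hz : Tendsto (fun j : ℕ => 8 * (1 / 4 : ℝ) ^ j) atTop (𝓝 0) := by
      have := (tendsto_pow_atTop_nhds_zero_of_lt_one (show (0 : ℝ) ≤ 1 / 4 by norm_num)
        (by norm_num)).const_mul 8
      simpa using this
    exact tendsto_iff_dist_tendsto_zero.2
      (squeeze_zero (fun j => dist_nonneg) (fun j => by rw [Real.dist_eq]; exact hb' j) hz)
  -- uniqueness
  have huniq : ∀ (p : ℝ × (ℕ → ℝ)) (s : ℕ → ℝ), (∀ j, s j = gA j (s (j + 1)) (p.2 j)) →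
      Tendsto s atTop (𝓝 p.1) → ∀ j, A j p = s j := by
    intro p s hs hst j
    have h1 : ∀ n j, |Phi p.2 p.1 n j - s j| ≤ |p.1 - s (j + n)| := by
      intro n
      induction n with
      | zero => exact fun j => le_rfl
      | succ n ih =>
        intro j
        rw [hs j]
        refine (gA_lip j _ _ _).trans ((ih (j + 1)).trans (le_of_eq ?_))
        rw [show j + 1 + n = j + (n + 1) by omega]
    have h2 : Tendsto (fun n => |p.1 - s (j + n)|) atTop (𝓝 0) := by
      have h3 : Tendsto (fun n => s (j + n)) atTop (𝓝 p.1) :=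
        hst.comp (tendsto_atTop_mono (fun n => Nat.le_add_left n j) tendsto_id)
      have := (tendsto_const_nhds (x := p.1)).sub h3
      simpa using this.abs
    have h4 : Tendsto (fun n => Phi p.2 p.1 n j) atTop (𝓝 (s j)) :=
      tendsto_iff_dist_tendsto_zero.2
        (squeeze_zero (fun n => dist_nonneg) (fun n => by rw [Real.dist_eq]; exact h1 n j) h2)
    exact tendsto_nhds_unique (hAlim j p) h4
  let F : (Option ℕ → ℝ) → ℝ × (ℕ → ℝ) := fun y => (al y, fun j => fB j (aseq y j) (y (some j)))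
  let G : ℝ × (ℕ → ℝ) → (Option ℕ → ℝ) := fun p o =>
    match o with
    | none => A 0 p
    | some j => gB j (A (j + 1) p) (p.2 j)
  have hG0 : ∀ p, G p none = A 0 p := fun p => rfl
  have hG1 : ∀ p j, G p (some j) = gB j (A (j + 1) p) (p.2 j) := fun p j => rfl
  have hGF : ∀ y, G (F y) = y := by
    intro y
    have h1 : ∀ j, A j (F y) = aseq y j := by
      refine huniq (F y) (aseq y) (fun j => ?_) (hlim y)
      exact (gA_f j (aseq y j) (y (some j))).symm
    funext o
    cases o with
    | none => rw [hG0, h1]; rfl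
    | some j => rw [hG1, h1]; exact gB_f j (aseq y j) (y (some j))
  have hFG : ∀ p, F (G p) = p := by
    intro p
    have h1 : ∀ j, aseq (G p) j = A j p := by
      intro j
      induction j with
      | zero => rfl
      | succ j ih =>
        change fA j (aseq (G p) j) (G p (some j)) = _
        rw [ih, hG1, hArec j p, fA_g]
    refine Prod.ext ?_ (funext fun j => ?_)
    · have h2 := hlim (G p)
      simp only [h1] at h2
      exact tendsto_nhds_unique h2 (hAto p)
    · change fB j (aseq (G p) j) (G p (some j)) = p.2 j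
      rw [h1, hG1, hArec j p, fB_g]
  have hcF : Continuous F := hal.prodMk (continuous_pi fun j =>
    (continuous_fB j).comp ((continuous_aseq j).prodMk (continuous_apply (some j))))
  have hcG : Continuous G := by
    refine continuous_pi fun o => ?_
    cases o with
    | none => exact hA 0
    | some j =>
      exact (continuous_gB j).comp ((hA (j + 1)).prodMk ((continuous_apply j).comp continuous_snd))
  let h : (Option ℕ → ℝ) ≃ₜ ℝ × (ℕ → ℝ) :=
    { toFun := F, invFun := G, left_inv := hGF, right_inv := hFG,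
      continuous_toFun := hcF, continuous_invFun := hcG }
  have hsmall : ∀ y : Option ℕ → ℝ, (∀ o, |y o| ≤ 1) →
      h y = (0, fun j => match j with
        | 0 => 4 * y none
        | j + 1 => -4 * y (some j)) := by
    intro y hy
    have h1 : ∀ j, aseq y j = match j with
        | 0 => y none
        | j + 1 => - (y (some j) / 4 ^ (j + 1)) := by
      intro j
      induction j with
      | zero => rfl
      | succ j ih =>
        change fA j (aseq y j) (y (some j)) = _
        refine (fA_small j ?_ (hy _)).1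
        rw [ih]
        cases j with
        | zero => simpa using hy none
        | succ j =>
          simp only [abs_neg]
          rw [abs_div, abs_of_pos (show (0 : ℝ) < 4 ^ (j + 1) by positivity),
            div_le_iff₀ (by positivity), ← mul_pow]
          norm_num
          exact hy _
    have habs : ∀ j, |aseq y j| ≤ (1 / 4) ^ j := by
      intro j
      rw [h1]
      cases j with
      | zero => simpa using hy none
      | succ j =>
        simp only [abs_neg]
        rw [abs_div, abs_of_pos (show (0 : ℝ) < 4 ^ (j + 1) by positivity),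
          div_le_iff₀ (by positivity), ← mul_pow]
        norm_num
        exact hy _
    refine Prod.ext ?_ (funext fun j => ?_)
    · change al y = 0
      refine tendsto_nhds_unique (hlim y) (tendsto_iff_dist_tendsto_zero.2
        (squeeze_zero (fun j => dist_nonneg) (fun j => ?_)
          (tendsto_pow_atTop_nhds_zero_of_lt_one (show (0 : ℝ) ≤ 1 / 4 by norm_num)
            (by norm_num))))
      rw [Real.dist_eq, sub_zero]
      exact habs j
    · change fB j (aseq y j) (y (some j)) = _
      rw [(fA_small j (habs j) (hy _)).2, h1]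
      cases j with
      | zero => simp
      | succ j =>
        have : (4 : ℝ) ^ (j + 1) ≠ 0 := by positivity
        simp only
        field_simp
        ring
  refine ⟨h, fun ε hε y => ⟨fun hy => ?_, fun hy => ?_⟩⟩
  · rw [hsmall y fun o => (hy o).trans hε]
    refine ⟨rfl, fun j => ?_⟩
    cases j with
    | zero => simp only [abs_mul]; rw [abs_of_pos (by norm_num : (0 : ℝ) < 4)]; linarith [hy none]
    | succ j =>
      simp only [abs_mul, abs_neg]
      rw [abs_of_pos (by norm_num : (0 : ℝ) < 4)]; linarith [hy (some j)]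
  · let y' : Option ℕ → ℝ := fun o => match o with
      | none => (h y).2 0 / 4
      | some j => - ((h y).2 (j + 1) / 4)
    have hy' : ∀ o, |y' o| ≤ ε := by
      intro o
      cases o with
      | none =>
        change |(h y).2 0 / 4| ≤ ε
        rw [abs_div, abs_of_pos (by norm_num : (0 : ℝ) < 4), div_le_iff₀ (by norm_num)]
        linarith [hy.2 0]
      | some j =>
        change |- ((h y).2 (j + 1) / 4)| ≤ ε
        rw [abs_neg, abs_div, abs_of_pos (by norm_num : (0 : ℝ) < 4), div_le_iff₀ (by norm_num)]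
        linarith [hy.2 (j + 1)]
    have h1 : h y' = h y := by
      rw [hsmall y' fun o => (hy' o).trans hε]
      refine Prod.ext hy.1.symm (funext fun j => ?_)
      cases j with
      | zero =>
        change 4 * ((h y).2 0 / 4) = (h y).2 0
        ring
      | succ j =>
        change -4 * (- ((h y).2 (j + 1) / 4)) = (h y).2 (j + 1)
        ring
    rw [← h.injective h1]
    exact hy'

end Pool.Agent.AtEq
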