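import Pool.Agent.AtEq.Tree
import Pool.Agent.AtEq.Theta
import Pool.Agent.AtEq.BackForth

set_option autoImplicit false
set_option linter.unusedSectionVars false

/-! The function space of a wedge with the metric fan is an absorber. -/

namespace Pool.Agent.AtEq

open Filter Topology

/-- The points of the wedge. -/
abbrev Idx (D0 : Type) : Type := Option (((ℕ × ℕ) × Option ℕ) ⊕ D0)

section
variable {D0 : Type} [Encodable D0]

/-- Ranks. -/
def rank (D0 : Type) [Encodable D0] : Idx D0 → ℕ
  | none => 0
  | some (Sum.inl p) => p.1.1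
  | some (Sum.inr d) => Encodable.encode d

theorem exists_enum (D0 : Type) [Encodable D0] :
    ∃ e : Idx D0 ≃ ℕ, ∀ i, rk (e i) = rank D0 i := by
  have hinf : ∀ m, Infinite {i : Idx D0 // rank D0 i = m} := by
    intro m
    refine Infinite.of_injective
      (fun n : ℕ => (⟨some (Sum.inl ((m, n), none)), rfl⟩ : {i : Idx D0 // rank D0 i = m})) ?_
    intro n n' h
    have h1 : (some (Sum.inl ((m, n), none)) : Idx D0) = some (Sum.inl ((m, n'), none)) :=
      congrArg Subtype.val h
    simpa using h1
  have hne : ∀ m, Nonempty ({i : Idx D0 // rank D0 i = m} ≃ ℕ) := fun m =>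
    nonempty_equiv_of_countable
  let ε : ∀ m, {i : Idx D0 // rank D0 i = m} ≃ ℕ := fun m => (hne m).some
  let e : Idx D0 ≃ ℕ := (Equiv.sigmaFiberEquiv (rank D0)).symm.trans
    ((Equiv.sigmaCongrRight fun m => ε m).trans
      ((Equiv.sigmaEquivProd ℕ ℕ).trans Nat.pairEquiv))
  refine ⟨e, fun i => ?_⟩
  change (Nat.unpair (Nat.pair (rank D0 i) _)).1 = rank D0 i
  rw [Nat.unpair_pair]

/-- Normalized row homeomorphism. -/
theorem exists_row' : ∃ h : (Option ℕ → ℝ) ≃ₜ (Option ℕ → ℝ), ∀ ε : ℝ, ε ≤ 1 →
    ∀ y : Option ℕ → ℝ,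
      ((∀ o, |y o| ≤ ε) ↔ (h y none = 0 ∧ ∀ j, |h y (some j)| ≤ ε)) := by
  obtain ⟨h, hh⟩ := exists_row
  let s : (ℝ × (ℕ → ℝ)) ≃ₜ (Option ℕ → ℝ) :=
    { toFun := fun p o => match o with
        | none => p.1
        | some j => p.2 j / 4
      invFun := fun y => (y none, fun j => 4 * y (some j))
      left_inv := by
        rintro ⟨a, b⟩
        refine Prod.ext rfl (funext fun j => ?_)
        change 4 * (b j / 4) = b j
        ring
      right_inv := by
        intro y
        funext o
        cases o with
        | none => rfl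
        | some j =>
          change 4 * y (some j) / 4 = y (some j)
          ring
      continuous_toFun := by
        refine continuous_pi fun o => ?_
        cases o with
        | none => exact continuous_fst
        | some j => exact ((continuous_apply j).comp continuous_snd).div_const 4
      continuous_invFun := by fun_prop }
  refine ⟨h.trans s, fun ε hε y => ?_⟩
  rw [hh ε hε y]
  refine and_congr Iff.rfl (forall_congr' fun j => ?_)
  change _ ↔ |(h y).2 j / 4| ≤ ε
  rw [abs_div, abs_of_pos (by norm_num : (0 : ℝ) < 4), div_le_iff₀ (by norm_num), mul_comm]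

/-- The closed sets of the absorber, in terms of the wedge index. -/
def SI (B : ℕ → ℕ → Set (D0 → ℝ)) (k r : ℕ) : Set (Idx D0 → ℝ) :=
  {x | (∀ n i, r ≤ n → x (some (Sum.inl ((n, i), none))) = 0 ∧
      ∀ j, |x (some (Sum.inl ((n, i), some j)))| ≤ 1 / ((k : ℝ) + 1)) ∧
    (fun d => x (some (Sum.inr d))) ∈ B k r}

theorem isClosed_SI (B : ℕ → ℕ → Set (D0 → ℝ)) (hB : ∀ k r, IsClosed (B k r)) (k r : ℕ) :
    IsClosed (SI B k r) := by
  have h1 : SI B k r = (⋂ (n : ℕ) (i : ℕ) (_ : r ≤ n),
      ({x : Idx D0 → ℝ | x (some (Sum.inl ((n, i), none))) = 0} ∩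
        ⋂ j, {x : Idx D0 → ℝ | |x (some (Sum.inl ((n, i), some j)))| ≤ 1 / ((k : ℝ) + 1)})) ∩
      (fun (x : Idx D0 → ℝ) (d : D0) => x (some (Sum.inr d))) ⁻¹' B k r := by
    ext x
    simp only [SI, Set.mem_ofPred_eq, Set.mem_inter_iff, Set.mem_iInter, Set.mem_preimage]
  rw [h1]
  refine IsClosed.inter (isClosed_iInter fun n => isClosed_iInter fun i => isClosed_iInter
    fun _ => IsClosed.inter ?_ (isClosed_iInter fun j => ?_)) ?_
  · exact isClosed_eq (continuous_apply _) continuous_const
  · exact isClosed_le (continuous_apply _).abs continuous_const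
  · exact (hB k r).preimage (continuous_pi fun d => continuous_apply _)

/-- The absorber of the wedge. -/
noncomputable def mkAbs (F0 : Filter D0) (hF0 : F0 ≤ cofinite) (B : ℕ → ℕ → Set (D0 → ℝ))
    (hBc : ∀ k r, IsClosed (B k r)) (hBm : ∀ k r r', r ≤ r' → B k r ⊆ B k r')
    (hBt : ∀ g : D0 → ℝ, Tendsto g F0 (𝓝 0) ↔ ∀ k, ∃ r, g ∈ B k r)
    (e : Idx D0 ≃ ℕ) (he : ∀ i, rk (e i) = rank D0 i) : Absorber where
  Y := {m | ∃ n i, e (some (Sum.inl ((n, i), none))) = m}
  ξ n := e (some (Sum.inl ((n, 0), some 0)))
  rk_xi n := he _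
  xi_notin := by
    rintro m ⟨n, i, h⟩
    have := e.injective h
    simp at this
  big := by
    intro m _
    refine Set.infinite_of_injective_forall_mem
      (f := fun n => e (some (Sum.inl ((m, n), none)))) ?_ ?_
    · intro n n' h
      have := e.injective h
      simpa using this
    · intro n
      exact ⟨⟨m, n, rfl⟩, he _⟩
  S k r := (fun (z : ℕ → ℝ) (i : Idx D0) => z (e i)) ⁻¹' SI B k r
  closed k r := (isClosed_SI B hBc k r).preimage (continuous_pi fun i => continuous_apply _)
  mono := by
    rintro k r r' h z ⟨h1, h2⟩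
    exact ⟨fun n i hn => h1 n i (h.trans hn), hBm k r r' h h2⟩
  zero := by
    rintro r z ⟨h1, _⟩ _ ⟨n, i, rfl⟩ hr
    rw [he] at hr
    exact (h1 n i hr).1
  abs := by
    rintro z ⟨m, hm⟩
    have hz : ∀ i : Idx D0, m ≤ rank D0 i → (∀ n, i ≠ some (Sum.inl ((n, 0), some 0))) →
        z (e i) = 0 := by
      intro i hi hne
      refine hm (e i) (by rwa [he]) ?_
      rintro ⟨n, hn⟩
      exact hne n (e.injective hn).symm
    constructor
    · intro h
      rw [tendsto_iff_abs]
      intro k
      obtain ⟨r, h1, _⟩ := h k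
      filter_upwards [eventually_ge_atTop r] with n hn
      exact (h1 n 0 hn).2 0
    · intro h k
      have h1 := (tendsto_iff_abs _ _).1 h k
      obtain ⟨r1, hr1⟩ := eventually_atTop.1 h1
      have h2 : Tendsto (fun d => z (e (some (Sum.inr d)))) F0 (𝓝 0) := by
        refine tendsto_nhds_of_eventually_eq ?_
        refine hF0 ?_
        rw [mem_cofinite]
        refine ((Set.finite_Iio m).preimage (f := (Encodable.encode : D0 → ℕ))
          (Set.injOn_of_injective Encodable.encode_injective)).subset ?_
        intro d hd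
        by_contra hcon
        have hle : m ≤ Encodable.encode d := not_lt.1 hcon
        exact hd (hz _ hle fun n => by simp)
      obtain ⟨r2, hr2⟩ := (hBt _).1 h2 k
      refine ⟨max (max m r1) r2, ⟨fun n i hn => ⟨?_, fun j => ?_⟩, ?_⟩⟩
      · refine hz _ ?_ fun n' => by simp
        exact ((le_max_left _ _).trans (le_max_left _ _)).trans hn
      · by_cases hij : i = 0 ∧ j = 0
        · obtain ⟨rfl, rfl⟩ := hij
          exact hr1 n (((le_max_right _ _).trans (le_max_left _ _)).trans hn)
        · have h3 : z (e (some (Sum.inl ((n, i), some j)))) = 0 := by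
            refine hz _ (((le_max_left _ _).trans (le_max_left _ _)).trans hn) fun n' h' => ?_
            simp only [Option.some.injEq, Sum.inl.injEq, Prod.mk.injEq] at h'
            exact hij ⟨h'.1.2, h'.2⟩
          change |z (e (some (Sum.inl ((n, i), some j))))| ≤ _
          rw [h3, abs_zero]
          positivity
      · exact hBm k r2 _ (le_max_right _ _) hr2

/-- The function space of the wedge is carried onto the absorber. -/
theorem exists_theta (F0 : Filter D0) (B : ℕ → ℕ → Set (D0 → ℝ))
    (hBm : ∀ k r r', r ≤ r' → B k r ⊆ B k r')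
    (hBt : ∀ g : D0 → ℝ, Tendsto g F0 (𝓝 0) ↔ ∀ k, ∃ r, g ∈ B k r) :
    ∃ θ : (NSp (fanF F0) → ℝ) ≃ₜ (Idx D0 → ℝ), ∀ f : NSp (fanF F0) → ℝ,
      Continuous f ↔ ∀ k, ∃ r, θ f ∈ SI B k r := by
  obtain ⟨h, hh⟩ := exists_row'
  let θ : (Idx D0 → ℝ) ≃ₜ (Idx D0 → ℝ) :=
    { toFun := fun f i => match i with
        | none => f none
        | some (Sum.inl (p, o)) => h (fun o' => f (some (Sum.inl (p, o'))) - f none) o
        | some (Sum.inr d) => f (some (Sum.inr d)) - f none
      invFun := fun g i => match i with
        | none => g none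
        | some (Sum.inl (p, o)) => h.symm (fun o' => g (some (Sum.inl (p, o')))) o + g none
        | some (Sum.inr d) => g (some (Sum.inr d)) + g none
      left_inv := by
        intro f
        funext i
        match i with
        | none => rfl
        | some (Sum.inl (p, o)) =>
          change h.symm (h (fun o' => f (some (Sum.inl (p, o'))) - f none)) o + f none = _
          rw [Homeomorph.symm_apply_apply]
          ring
        | some (Sum.inr d) =>
          change f (some (Sum.inr d)) - f none + f none = _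
          ring
      right_inv := by
        intro g
        funext i
        match i with
        | none => rfl
        | some (Sum.inl (p, o)) =>
          change h (fun o' => h.symm (fun o' => g (some (Sum.inl (p, o')))) o' + g none -
            g none) o = _
          simp only [add_sub_cancel_right]
          rw [show (fun o' => h.symm (fun o' => g (some (Sum.inl (p, o')))) o') =
            h.symm (fun o' => g (some (Sum.inl (p, o')))) from rfl, Homeomorph.apply_symm_apply]
        | some (Sum.inr d) =>
          change g (some (Sum.inr d)) + g none - g none = _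
          ring
      continuous_toFun := by
        refine continuous_pi fun i => ?_
        match i with
        | none => exact continuous_apply _
        | some (Sum.inl (p, o)) =>
          refine (continuous_apply o).comp (h.continuous.comp (continuous_pi fun o' => ?_))
          exact (continuous_apply _).sub (continuous_apply _)
        | some (Sum.inr d) => exact (continuous_apply _).sub (continuous_apply _)
      continuous_invFun := by
        refine continuous_pi fun i => ?_
        match i with
        | none => exact continuous_apply _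
        | some (Sum.inl (p, o)) =>
          refine ((continuous_apply o).comp (h.symm.continuous.comp
            (continuous_pi fun o' => ?_))).add (continuous_apply _)
          exact continuous_apply _
        | some (Sum.inr d) => exact (continuous_apply _).add (continuous_apply _) }
  refine ⟨θ, fun f => ?_⟩
  rw [continuous_nsp_iff]
  set f' : Idx D0 → ℝ := f with hf'
  have h0 : Tendsto (fun d => f' (some d)) (fanF F0) (𝓝 (f' none)) ↔
      Tendsto (fun d => f' (some d) - f' none) (fanF F0) (𝓝 0) := tendsto_sub_nhds_zero_iff.symm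
  have h1 : Tendsto (fun d => f' (some d) - f' none) (fanF F0) (𝓝 0) ↔
      (∀ k : ℕ, ∃ r : ℕ, ∀ n i, r ≤ n → ∀ o, |f' (some (Sum.inl ((n, i), o))) - f' none| ≤
        1 / ((k : ℝ) + 1)) ∧
      (∀ k, ∃ r, (fun d => f' (some (Sum.inr d)) - f' none) ∈ B k r) := by
    rw [← hBt]
    rw [fanF, tendsto_sup, tendsto_map'_iff, tendsto_map'_iff]
    refine and_congr ?_ Iff.rfl
    rw [tendsto_iff_abs]
    refine forall_congr' fun k => ?_
    rw [eventually_comap, eventually_atTop]
    refine exists_congr fun r => ?_
    constructor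
    · intro H n i hn o
      exact H n hn ((n, i), o) rfl
    · rintro H n hn ⟨⟨n', i⟩, o⟩ rfl
      exact H n' i hn o
  rw [h0, h1]
  have h2 : ∀ (k : ℕ) (n i : ℕ), (∀ o, |f' (some (Sum.inl ((n, i), o))) - f' none| ≤
      1 / ((k : ℝ) + 1)) ↔ (θ f' (some (Sum.inl ((n, i), none))) = 0 ∧
        ∀ j, |θ f' (some (Sum.inl ((n, i), some j)))| ≤ 1 / ((k : ℝ) + 1)) := by
    intro k n i
    refine hh _ ?_ _
    rw [div_le_one (by positivity)]
    have : (0 : ℝ) ≤ k := Nat.cast_nonneg k
    linarith
  constructor
  · rintro ⟨ha, hb⟩ k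
    obtain ⟨r1, h3⟩ := ha k
    obtain ⟨r2, h4⟩ := hb k
    exact ⟨max r1 r2, fun n i hn => (h2 k n i).1 (h3 n i ((le_max_left _ _).trans hn)),
      hBm k r2 _ (le_max_right _ _) h4⟩
  · intro H
    refine ⟨fun k => ?_, fun k => ?_⟩
    · obtain ⟨r, h3, _⟩ := H k
      exact ⟨r, fun n i hn => (h2 k n i).2 (h3 n i hn)⟩
    · obtain ⟨r, _, h4⟩ := H k
      exact ⟨r, h4⟩

/-- The pair of the wedge is an absorber pair. -/
theorem exists_absorber (F0 : Filter D0) (hF0 : F0 ≤ cofinite) (B : ℕ → ℕ → Set (D0 → ℝ))
    (hBc : ∀ k r, IsClosed (B k r)) (hBm : ∀ k r r', r ≤ r' → B k r ⊆ B k r')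
    (hBt : ∀ g : D0 → ℝ, Tendsto g F0 (𝓝 0) ↔ ∀ k, ∃ r, g ∈ B k r) :
    ∃ (A : Absorber) (φ : (NSp (fanF F0) → ℝ) ≃ₜ (ℕ → ℝ)),
      ∀ f, Continuous f ↔ φ f ∈ A.Om := by
  obtain ⟨e, he⟩ := exists_enum D0
  obtain ⟨θ, hθ⟩ := exists_theta F0 B hBm hBt
  let ψ : (Idx D0 → ℝ) ≃ₜ (ℕ → ℝ) :=
    { toFun := fun x n => x (e.symm n)
      invFun := fun z i => z (e i)
      left_inv := fun x => by funext i; simp
      right_inv := fun z => by funext n; simp
      continuous_toFun := continuous_pi fun n => continuous_apply _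
      continuous_invFun := continuous_pi fun i => continuous_apply _ }
  refine ⟨mkAbs F0 hF0 B hBc hBm hBt e he, θ.trans ψ, fun f => ?_⟩
  rw [hθ f]
  refine forall_congr' fun k => exists_congr fun r => ?_
  change _ ↔ (fun i => θ f (e.symm (e i))) ∈ SI B k r
  simp only [Equiv.symm_apply_apply]

end

end Pool.Agent.AtEq
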