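import Pool.Agent.AtEq.Tower

set_option autoImplicit false

/-! Reindexing coordinates. -/

namespace Pool.Agent.AtEq

open Tower Filter Topology

/-- The rank of a coordinate. -/
def rk (i : ℕ) : ℕ := i.unpair.1

theorem rk_le (i : ℕ) : rk i ≤ i := Nat.unpair_left_le i

/-- Reindex a set of coordinates which carries the number zero. -/
theorem exists_reindex (N : Set ℕ) (hN : N.Infinite) :
    ∃ e : FH (ℕ → ℝ) ((ℕ → ℝ) × (ℕ → ℝ)),
      (∀ x : ℕ → ℝ, (∀ i ∈ N, x i = 0) → e.h x = (x, 0)) ∧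
      (∀ x i, i ∉ N → (e.h x).1 i = x i) ∧ (∀ p i, i ∉ N → e.h.symm p i = p.1 i) := by
  classical
  have : Infinite N := hN.to_subtype
  obtain ⟨ε⟩ : Nonempty (N ≃ N ⊕ ℕ) := nonempty_equiv_of_countable
  let sh : (N ⊕ ℕ) ⊕ (Nᶜ : Set ℕ) ≃ (N ⊕ (Nᶜ : Set ℕ)) ⊕ ℕ :=
    (Equiv.sumAssoc _ _ _).trans
      ((Equiv.sumCongr (Equiv.refl _) (Equiv.sumComm _ _)).trans (Equiv.sumAssoc _ _ _).symm)
  let e0 : ℕ ≃ ℕ ⊕ ℕ := (Equiv.Set.sumCompl N).symm.trans
    ((Equiv.sumCongr ε (Equiv.refl _)).trans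
      (sh.trans (Equiv.sumCongr (Equiv.Set.sumCompl N) (Equiv.refl ℕ))))
  have h1 : ∀ i, i ∉ N → e0 i = Sum.inl i := by
    intro i hi
    simp only [e0, sh, Equiv.trans_apply]
    rw [Equiv.Set.sumCompl_symm_apply_of_notMem hi]
    simp
  have h1' : ∀ i, i ∉ N → e0.symm (Sum.inl i) = i := by
    intro i hi
    rw [← h1 i hi, Equiv.symm_apply_apply]
  have h2 : ∀ i, i ∈ N → e0.symm (Sum.inl i) ∈ N := by
    intro i hi
    by_contra hcon
    have := h1 _ hcon
    rw [Equiv.apply_symm_apply] at this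
    have h3 : i = e0.symm (Sum.inl i) := Sum.inl_injective this
    exact hcon (h3 ▸ hi)
  have h3 : ∀ i, e0.symm (Sum.inr i) ∈ N := by
    intro i
    by_contra hcon
    have := h1 _ hcon
    rw [Equiv.apply_symm_apply] at this
    exact Sum.inr_ne_inl this
  let E : (ℕ → ℝ) ≃ₜ ((ℕ → ℝ) × (ℕ → ℝ)) :=
    { toFun := fun x => (fun j => x (e0.symm (Sum.inl j)), fun j => x (e0.symm (Sum.inr j)))
      invFun := fun p i => Sum.elim p.1 p.2 (e0 i)
      left_inv := by
        intro x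
        funext i
        rcases h : e0 i with j | j
        · simp only [h, Sum.elim_inl]; rw [← h, Equiv.symm_apply_apply]
        · simp only [h, Sum.elim_inr]; rw [← h, Equiv.symm_apply_apply]
      right_inv := by
        rintro ⟨u, v⟩
        ext j <;> simp
      continuous_toFun := by fun_prop
      continuous_invFun := by
        refine continuous_pi fun i => ?_
        rcases h : e0 i with j | j
        · simp only [Sum.elim_inl]; fun_prop
        · simp only [Sum.elim_inr]; fun_prop }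
  refine ⟨⟨E, ?_, ?_⟩, ?_, ?_, ?_⟩
  · refine FinU.prodMk (FinU.of_coord fun i => ?_) (FinU.of_coord fun i => ?_)
    · exact ⟨e0.symm (Sum.inl i) + 1, fun x y h => h _ (Nat.lt_succ_self _)⟩
    · exact ⟨e0.symm (Sum.inr i) + 1, fun x y h => h _ (Nat.lt_succ_self _)⟩
  · refine FinU.of_coord fun i => ?_
    rcases h : e0 i with j | j
    · refine ⟨j + 1, fun x y hxy => ?_⟩
      change Sum.elim x.1 x.2 (e0 i) = Sum.elim y.1 y.2 (e0 i)
      rw [h]
      exact hxy.1 j (Nat.lt_succ_self _)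
    · refine ⟨j + 1, fun x y hxy => ?_⟩
      change Sum.elim x.1 x.2 (e0 i) = Sum.elim y.1 y.2 (e0 i)
      rw [h]
      exact hxy.2 j (Nat.lt_succ_self _)
  · intro x hx
    ext j
    · change x (e0.symm (Sum.inl j)) = x j
      by_cases hj : j ∈ N
      · rw [hx _ (h2 j hj), hx j hj]
      · rw [h1' j hj]
    · change x (e0.symm (Sum.inr j)) = 0
      exact hx _ (h3 j)
  · intro x i hi
    change x (e0.symm (Sum.inl i)) = x i
    rw [h1' i hi]
  · intro p i hi
    change Sum.elim p.1 p.2 (e0 i) = p.1 i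
    rw [h1 i hi]
    rfl

/-- A set of coordinates with infinitely many elements of each rank at least `r`. -/
def Big (N : Set ℕ) (r : ℕ) : Prop := ∀ m, r ≤ m → {i | i ∈ N ∧ rk i = m}.Infinite

theorem Big.infinite {N : Set ℕ} {r : ℕ} (h : Big N r) : N.Infinite :=
  (h r le_rfl).mono fun _ hi => hi.1

theorem Big.inter {N : Set ℕ} {r : ℕ} (h : Big N r) (s : ℕ) :
    Big {i | i ∈ N ∧ s ≤ rk i} (max r s) := by
  intro m hm
  refine (h m ((le_max_left _ _).trans hm)).mono ?_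
  rintro i ⟨hi, hri⟩
  exact ⟨⟨hi, hri ▸ (le_max_right _ _).trans hm⟩, hri⟩

theorem exists_placement (N : Set ℕ) (r : ℕ) (hr : ∀ i ∈ N, r ≤ rk i) (hN : Big N r) :
    ∃ (c : ℕ ⊕ (ℕ × ℕ) → ℕ) (N' : Set ℕ), Function.Injective c ∧
      (∀ a, a ∉ N → c (Sum.inl a) = a) ∧ (∀ a ∈ N, c (Sum.inl a) ∈ N) ∧
      (∀ a, rk (c (Sum.inl a)) = rk a) ∧
      (∀ m a, c (Sum.inr (m, a)) ∈ N ∧ rk (c (Sum.inr (m, a))) = r + m) ∧
      N' ⊆ N ∧ (∀ o, c o ∉ N') ∧ Big N' r := by
  classical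
  have hν : ∀ m, ∃ f : ℕ → ℕ, r ≤ m → Function.Injective f ∧
      (∀ n, f n ∈ N ∧ rk (f n) = m) ∧ (∀ a ∈ N, rk a = m → ∃ n, f n = a) := by
    intro m
    by_cases hm : r ≤ m
    · have : Infinite {i | i ∈ N ∧ rk i = m} := (hN m hm).to_subtype
      obtain ⟨ε⟩ : Nonempty (ℕ ≃ {i | i ∈ N ∧ rk i = m}) := nonempty_equiv_of_countable
      refine ⟨fun n => ε n, fun _ => ⟨?_, ?_, ?_⟩⟩
      · exact Subtype.val_injective.comp ε.injective
      · exact fun n => (ε n).2
      · intro a ha hra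
        exact ⟨ε.symm ⟨a, ha, hra⟩, by simp⟩
    · exact ⟨id, fun h => absurd h hm⟩
  choose ν hν using hν
  have hidx : ∀ a, ∃ n, a ∈ N → ν (rk a) n = a := by
    intro a
    by_cases ha : a ∈ N
    · obtain ⟨n, hn⟩ := (hν (rk a) (hr a ha)).2.2 a ha rfl
      exact ⟨n, fun _ => hn⟩
    · exact ⟨0, fun h => absurd h ha⟩
  choose idx hidx using hidx
  have hmem : ∀ m, r ≤ m → ∀ n, ν m n ∈ N := fun m hm n => ((hν m hm).2.1 n).1
  have hrk : ∀ m, r ≤ m → ∀ n, rk (ν m n) = m := fun m hm n => ((hν m hm).2.1 n).2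
  have hcancel : ∀ m m' n n', r ≤ m → r ≤ m' → ν m n = ν m' n' → m = m' ∧ n = n' := by
    intro m m' n n' hm hm' h
    have h1 : m = m' := by rw [← hrk m hm n, h, hrk m' hm' n']
    subst h1
    exact ⟨rfl, (hν m hm).1 h⟩
  let c : ℕ ⊕ (ℕ × ℕ) → ℕ := Sum.elim (fun a => if a ∈ N then ν (rk a) (3 * idx a) else a)
    (fun p => ν (r + p.1) (3 * p.2 + 1))
  have hc1 : ∀ a, a ∈ N → c (Sum.inl a) = ν (rk a) (3 * idx a) := fun a ha => by simp [c, ha]
  have hc2 : ∀ a, a ∉ N → c (Sum.inl a) = a := fun a ha => by simp [c, ha]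
  have hc3 : ∀ m a, c (Sum.inr (m, a)) = ν (r + m) (3 * a + 1) := fun m a => rfl
  have hc4 : ∀ a, a ∈ N → c (Sum.inl a) ∈ N := fun a ha => by
    rw [hc1 a ha]; exact hmem _ (hr a ha) _
  refine ⟨c, {i | ∃ m, r ≤ m ∧ ∃ n, i = ν m (3 * n + 2)}, ?_, hc2, hc4, ?_, ?_, ?_, ?_, ?_⟩
  · rintro (a | ⟨m, a⟩) (b | ⟨m', b⟩) h
    · by_cases ha : a ∈ N
      · by_cases hb : b ∈ N
        · rw [hc1 a ha, hc1 b hb] at h
          obtain ⟨h1, h2⟩ := hcancel _ _ _ _ (hr a ha) (hr b hb) h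
          have h3 : idx a = idx b := by omega
          have h4 : a = b := by rw [← hidx a ha, ← hidx b hb, h1, h3]
          rw [h4]
        · exact absurd (hc4 a ha) (by rw [h, hc2 b hb]; exact hb)
      · by_cases hb : b ∈ N
        · exact absurd (hc4 b hb) (by rw [← h, hc2 a ha]; exact ha)
        · rw [hc2 a ha, hc2 b hb] at h; rw [h]
    · rw [hc3] at h
      by_cases ha : a ∈ N
      · rw [hc1 a ha] at h
        have := (hcancel _ _ _ _ (hr a ha) (Nat.le_add_right _ _) h).2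
        omega
      · rw [hc2 a ha] at h
        exact absurd (hmem (r + m') (Nat.le_add_right _ _) _) (h ▸ ha)
    · rw [hc3] at h
      by_cases hb : b ∈ N
      · rw [hc1 b hb] at h
        have := (hcancel _ _ _ _ (Nat.le_add_right _ _) (hr b hb) h).2
        omega
      · rw [hc2 b hb] at h
        exact absurd (hmem (r + m) (Nat.le_add_right _ _) _) (h ▸ hb)
    · rw [hc3, hc3] at h
      obtain ⟨h1, h2⟩ := hcancel _ _ _ _ (Nat.le_add_right _ _) (Nat.le_add_right _ _) h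
      have h3 : m = m' := by omega
      have h4 : a = b := by omega
      rw [h3, h4]
  · intro a
    by_cases ha : a ∈ N
    · rw [hc1 a ha, hrk _ (hr a ha)]
    · rw [hc2 a ha]
  · intro m a
    rw [hc3]
    exact ⟨hmem _ (Nat.le_add_right _ _) _, hrk _ (Nat.le_add_right _ _) _⟩
  · rintro _ ⟨m, hm, n, rfl⟩
    exact hmem m hm _
  · rintro (a | ⟨m', a⟩) ⟨m, hm, n, h⟩
    · by_cases ha : a ∈ N
      · rw [hc1 a ha] at h
        have := (hcancel _ _ _ _ (hr a ha) hm h).2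
        omega
      · rw [hc2 a ha] at h
        exact ha (h ▸ hmem m hm _)
    · rw [hc3] at h
      have := (hcancel _ _ _ _ (Nat.le_add_right _ _) hm h).2
      omega
  · intro m hm
    refine Set.infinite_of_injective_forall_mem (f := fun n => ν m (3 * n + 2)) ?_ ?_
    · intro n n' h
      have := (hcancel _ _ _ _ hm hm h).2
      omega
    · intro n
      exact ⟨⟨m, hm, n, rfl⟩, hrk m hm _⟩

end Pool.Agent.AtEq
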