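import Pool.Agent.AtEq.Dist
import Pool.Agent.AtEq.Place

set_option autoImplicit false

/-! The map which pushes a closed set onto a zero set and encodes a Borel condition. -/

namespace Pool.Agent.AtEq

open Tower Filter Topology Finset

section
variable (c : ℕ ⊕ (ℕ × ℕ) → ℕ) (r : ℕ) (L : Set (ℕ → ℝ)) (T : ℕ → ℕ → Set (ℕ → ℝ)) (ξ : ℕ → ℕ)

/-- The code, placed at the coordinates `ξ m`. -/
noncomputable def codeW (a : ℕ) (z : ℕ → ℝ) : ℝ := if ξ (rk a) = a then wsum r T (rk a) z else 0

theorem continuous_codeW (a : ℕ) : Continuous (codeW r T ξ a) := by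
  unfold codeW
  by_cases h : ξ (rk a) = a
  · simpa only [h, if_true] using continuous_wsum _ _ _
  · simpa only [h, if_false] using continuous_const

theorem codeW_congr (a : ℕ) {x y : ℕ → ℝ} (h : rel a x y) : codeW r T ξ a x = codeW r T ξ a y := by
  unfold codeW
  rw [wsum_congr T (mono' _ _ _ _ (rk_le a) h)]

/-- The values to be placed. -/
noncomputable def pval (z : ℕ → ℝ) : ℕ ⊕ (ℕ × ℕ) → ℝ :=
  Sum.elim (fun a => (1 - ramp r L a z) * z a + codeW r T ξ a z)
    (fun p => (ramp r L (r + p.1 + 1) z - ramp r L (r + p.1) z) * z p.2)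

/-- The push. -/
noncomputable def push (z : ℕ → ℝ) : ℕ → ℝ := Function.extend c (pval r L T ξ z) 0

theorem continuous_pval (o : ℕ ⊕ (ℕ × ℕ)) : Continuous fun z => pval r L T ξ z o := by
  rcases o with a | ⟨m, a⟩
  · exact ((continuous_const.sub (continuous_ramp _ _ _)).mul (continuous_apply a)).add
      (continuous_codeW _ _ _ _)
  · exact ((continuous_ramp _ _ _).sub (continuous_ramp _ _ _)).mul (continuous_apply a)

theorem pval_congr (o : ℕ ⊕ (ℕ × ℕ)) :
    ∃ s, ∀ x y : ℕ → ℝ, rel s x y → pval r L T ξ x o = pval r L T ξ y o := by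
  rcases o with a | ⟨m, a⟩
  · refine ⟨a + 1, fun x y h => ?_⟩
    have h1 : rel a x y := mono' _ _ _ _ (Nat.le_succ a) h
    have h2 : x a = y a := h a (Nat.lt_succ_self a)
    simp only [pval, Sum.elim_inl, ramp_congr L h1, codeW_congr r T ξ a h1, h2]
  · refine ⟨max (r + m + 1) (a + 1), fun x y h => ?_⟩
    have h1 : rel (r + m + 1) x y := mono' _ _ _ _ (le_max_left _ _) h
    have h2 : x a = y a := h a (lt_of_lt_of_le (Nat.lt_succ_self a) (le_max_right _ _))
    simp only [pval, Sum.elim_inr, ramp_congr L h1,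
      ramp_congr L (mono' _ _ _ _ (Nat.le_succ (r + m)) h1), h2]

theorem push_apply (hc : Function.Injective c) (z : ℕ → ℝ) (o : ℕ ⊕ (ℕ × ℕ)) :
    push c r L T ξ z (c o) = pval r L T ξ z o := hc.extend_apply _ _ _

theorem push_other (z : ℕ → ℝ) (i : ℕ) (h : ∀ o, c o ≠ i) : push c r L T ξ z i = 0 := by
  rw [push, Function.extend_apply' _ _ _ (fun ⟨o, ho⟩ => h o ho)]
  rfl

theorem continuous_push (hc : Function.Injective c) : Continuous (push c r L T ξ) := by
  refine continuous_pi fun i => ?_
  by_cases h : ∃ o, c o = i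
  · obtain ⟨o, rfl⟩ := h
    simp only [push_apply c r L T ξ hc]
    exact continuous_pval r L T ξ o
  · push Not at h
    simp only [push_other c r L T ξ _ i h]
    exact continuous_const

theorem finU_push (hc : Function.Injective c) : FinU (push c r L T ξ) := by
  refine FinU.of_coord fun i => ?_
  by_cases h : ∃ o, c o = i
  · obtain ⟨o, rfl⟩ := h
    simp only [push_apply c r L T ξ hc]
    exact pval_congr r L T ξ o
  · push Not at h
    refine ⟨0, fun x y _ => ?_⟩
    rw [push_other c r L T ξ _ i h, push_other c r L T ξ _ i h]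

/-- Collecting the stored pieces of one coordinate. -/
noncomputable def coll (z : ℕ → ℝ) (a : ℕ) : ℝ :=
  z (c (Sum.inl a)) + ∑ m ∈ range (a - r), z (c (Sum.inr (m, a)))

/-- Successive approximations of the left inverse. -/
noncomputable def recov : ℕ → (ℕ → ℝ) → (ℕ → ℝ)
  | 0, _ => 0
  | n + 1, z => fun a => coll c r z a - codeW r T ξ a (recov n z)

/-- The left inverse. -/
noncomputable def pull (z : ℕ → ℝ) : ℕ → ℝ := fun a => recov c r T ξ (a + 1) z a

theorem continuous_coll (a : ℕ) : Continuous fun z => coll c r z a := by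
  unfold coll
  fun_prop

theorem continuous_recov (n : ℕ) : Continuous (recov c r T ξ n) := by
  induction n with
  | zero => exact continuous_const
  | succ n ih =>
    refine continuous_pi fun a => ?_
    exact (continuous_coll c r a).sub ((continuous_codeW r T ξ a).comp ih)

theorem finU_recov (n : ℕ) : FinU (recov c r T ξ n) := by
  induction n with
  | zero => exact fun t => ⟨0, fun _ _ _ _ _ => rfl⟩
  | succ n ih =>
    refine FinU.of_coord fun a => ?_
    obtain ⟨s, hs⟩ := ih a
    refine ⟨max (max s (c (Sum.inl a) + 1)) ((range (a - r)).sup fun m => c (Sum.inr (m, a)) + 1),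
      fun x y h => ?_⟩
    have h1 : codeW r T ξ a (recov c r T ξ n x) = codeW r T ξ a (recov c r T ξ n y) :=
      codeW_congr r T ξ a
        (hs x y (mono' _ _ _ _ ((le_max_left _ _).trans (le_max_left _ _)) h))
    have h2 : x (c (Sum.inl a)) = y (c (Sum.inl a)) :=
      h _ (lt_of_lt_of_le (Nat.lt_succ_self _) ((le_max_right _ _).trans (le_max_left _ _)))
    have h3 : ∀ m ∈ range (a - r), x (c (Sum.inr (m, a))) = y (c (Sum.inr (m, a))) := by
      intro m hm
      refine h _ (lt_of_lt_of_le (Nat.lt_succ_self _) (le_trans ?_ (le_max_right _ _)))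
      exact le_sup (f := fun m => c (Sum.inr (m, a)) + 1) hm
    simp only [recov, coll, h1, h2, sum_congr rfl h3]

theorem continuous_pull : Continuous (pull c r T ξ) :=
  continuous_pi fun a => (continuous_apply a).comp (continuous_recov c r T ξ (a + 1))

theorem finU_pull : FinU (pull c r T ξ) :=
  FinU.of_coord fun a => (finU_recov c r T ξ (a + 1)).coord a

theorem coll_push (hc : Function.Injective c) (z : ℕ → ℝ) (a : ℕ) :
    coll c r (push c r L T ξ z) a = z a + codeW r T ξ a z := by
  rw [coll, push_apply c r L T ξ hc]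
  simp only [push_apply c r L T ξ hc, pval, Sum.elim_inl, Sum.elim_inr]
  rw [← Finset.sum_mul]
  have h1 : ∑ m ∈ range (a - r), (ramp r L (r + m + 1) z - ramp r L (r + m) z) =
      ramp r L (r + (a - r)) z - ramp r L (r + 0) z :=
    Finset.sum_range_sub (fun m => ramp r L (r + m) z) (a - r)
  rw [h1, ramp_start (by omega : r + 0 ≤ r)]
  rcases le_total r a with h | h
  · rw [Nat.add_sub_cancel' h]; ring
  · rw [Nat.sub_eq_zero_of_le h, ramp_start (by omega : r + 0 ≤ r), ramp_start h]; ring

theorem recov_push (hc : Function.Injective c) (z : ℕ → ℝ) (n : ℕ) :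
    rel n (recov c r T ξ n (push c r L T ξ z)) z := by
  induction n with
  | zero => exact fun i hi => absurd hi (Nat.not_lt_zero i)
  | succ n ih =>
    intro a ha
    change coll c r (push c r L T ξ z) a - codeW r T ξ a (recov c r T ξ n (push c r L T ξ z)) = z a
    rw [coll_push c r L T ξ hc, codeW_congr r T ξ a (mono' _ _ _ _ (Nat.lt_succ_iff.1 ha) ih)]
    ring

theorem pull_push (hc : Function.Injective c) (z : ℕ → ℝ) :
    pull c r T ξ (push c r L T ξ z) = z :=
  funext fun a => recov_push c r L T ξ hc z (a + 1) a (Nat.lt_succ_self a)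

end

/-- Existence of the push and its left inverse. -/
theorem exists_push (r : ℕ) (L : Set (ℕ → ℝ)) (hL : IsClosed L) (N : Set ℕ)
    (hr : ∀ i ∈ N, r ≤ rk i) (hN : Big N r) (hLN : ∀ z ∈ L, ∀ i ∈ N, z i = 0)
    (ξ : ℕ → ℕ) (hξ : ∀ m, rk (ξ m) = m) (hξN : ∀ m, ξ m ∉ N)
    (T : ℕ → ℕ → Set (ℕ → ℝ)) (hT : ∀ k s, IsClosed (T k s))
    (hmono : ∀ k s s', s ≤ s' → T k s ⊆ T k s') (hLT : ∀ k s, L ⊆ T k s) :
    ∃ (q ρ : (ℕ → ℝ) → (ℕ → ℝ)) (N' : Set ℕ), Continuous q ∧ FinU q ∧ Continuous ρ ∧ FinU ρ ∧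
      (∀ z, ρ (q z) = z) ∧ (∀ z ∈ L, q z = z) ∧ (∀ z, rel r (q z) z) ∧ N' ⊆ N ∧ Big N' r ∧
      (∀ z, ∀ i ∈ N', q z i = 0) ∧
      (∀ z, z ∉ L → (∃ m, ∀ i, m ≤ rk i → i ∉ Set.range ξ → q z i = 0) ∧
        (Tendsto (fun m => q z (ξ m)) atTop (𝓝 0) ↔ ∀ k, ∃ s, z ∈ T k s)) := by
  obtain ⟨c, N', hc, hc1, hc2, hc3, hc4, hN'1, hN'2, hN'3⟩ := exists_placement N r hr hN
  refine ⟨push c r L T ξ, pull c r T ξ, N', continuous_push c r L T ξ hc, finU_push c r L T ξ hc,
    continuous_pull c r T ξ, finU_pull c r T ξ, pull_push c r L T ξ hc, ?_, ?_, hN'1, hN'3, ?_, ?_⟩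
  · -- identity on `L`
    intro z hz
    funext i
    have hW : ∀ a, codeW r T ξ a z = 0 := by
      intro a
      rw [codeW, wsum_zero (fun k s => hLT k s hz)]
      simp
    by_cases h : ∃ o, c o = i
    · obtain ⟨o, rfl⟩ := h
      rw [push_apply c r L T ξ hc]
      rcases o with a | ⟨m, a⟩
      · simp only [pval, Sum.elim_inl, ramp_zero hz, hW a]
        by_cases ha : a ∈ N
        · rw [hLN z hz a ha, hLN z hz _ (hc2 a ha)]; simp
        · rw [hc1 a ha]; simp
      · simp only [pval, Sum.elim_inr, ramp_zero hz]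
        rw [hLN z hz _ (hc4 m a).1]; simp
    · push Not at h
      rw [push_other c r L T ξ _ i h]
      by_cases hi : i ∈ N
      · rw [hLN z hz i hi]
      · exact absurd (hc1 i hi) (h _)
  · -- closeness
    intro z i hi
    have hiN : i ∉ N := fun h => absurd ((hr i h).trans (rk_le i)) (not_le.2 hi)
    have h1 := push_apply c r L T ξ hc z (Sum.inl i)
    rw [hc1 i hiN] at h1
    rw [h1]
    simp only [pval, Sum.elim_inl, ramp_start hi.le]
    have hW : codeW r T ξ i z = 0 := by
      rw [codeW, wsum_start ((rk_le i).trans_lt hi)]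
      simp
    rw [hW]; ring
  · intro z i hi
    exact push_other c r L T ξ z i fun o ho => hN'2 o (ho ▸ hi)
  · intro z hz
    obtain ⟨m0, hm0⟩ := ramp_eventually hL hz r
    refine ⟨⟨m0, fun i hi hxi => ?_⟩, ?_⟩
    · by_cases h : ∃ o, c o = i
      · obtain ⟨o, rfl⟩ := h
        rw [push_apply c r L T ξ hc]
        rcases o with a | ⟨m, a⟩
        · rw [hc3] at hi
          have hW : codeW r T ξ a z = 0 := by
            rw [codeW]
            by_cases h : ξ (rk a) = a
            · have haN : a ∉ N := h ▸ hξN _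
              rw [hc1 a haN] at hxi
              exact absurd ⟨_, h⟩ hxi
            · rw [if_neg h]
          simp only [pval, Sum.elim_inl, hm0 a (hi.trans (rk_le a)), hW]
          ring
        · rw [(hc4 m a).2] at hi
          simp only [pval, Sum.elim_inr, hm0 _ hi, hm0 _ (hi.trans (Nat.le_succ _))]
          ring
      · push Not at h
        exact push_other c r L T ξ z i h
    · rw [← tendsto_wsum_iff r hT hmono z]
      refine tendsto_congr' ?_
      filter_upwards [eventually_ge_atTop m0] with m hm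
      have h1 := push_apply c r L T ξ hc z (Sum.inl (ξ m))
      rw [hc1 _ (hξN m)] at h1
      rw [h1]
      have h2 : m ≤ ξ m := by have := rk_le (ξ m); rw [hξ m] at this; exact this
      simp only [pval, Sum.elim_inl, hm0 (ξ m) (hm.trans h2), codeW, hξ m, if_true]
      ring

end Pool.Agent.AtEq
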