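import Mathlib

set_option autoImplicit false

/-! Spaces with one nonisolated point. -/

namespace Pool.Agent.AtEq

open Filter Topology

/-- The space `D ∪ {∞}` whose neighbourhoods of infinity are given by the filter `F`. -/
def NSp {D : Type} (_F : Filter D) : Type := Option D

section
variable {D : Type} (F : Filter D)

instance instTopNSp : TopologicalSpace (NSp F) where
  IsOpen U := (none : Option D) ∈ (U : Set (Option D)) →
    (some : D → Option D) ⁻¹' (U : Set (Option D)) ∈ F
  isOpen_univ _ := univ_mem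
  isOpen_inter U V hU hV h := inter_mem (hU h.1) (hV h.2)
  isOpen_sUnion S hS h := by
    obtain ⟨U, hU, hmem⟩ := h
    exact mem_of_superset (hS U hU hmem) fun d hd => ⟨U, hU, hd⟩

theorem isOpen_nsp (U : Set (NSp F)) : IsOpen U ↔ ((none : Option D) ∈ (U : Set (Option D)) →
    (some : D → Option D) ⁻¹' (U : Set (Option D)) ∈ F) := Iff.rfl

theorem isOpen_of_notMem {U : Set (NSp F)} (h : (none : Option D) ∉ (U : Set (Option D))) :
    IsOpen U := fun h' => absurd h' h

theorem continuous_nsp_iff (f : NSp F → ℝ) :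
    Continuous f ↔ Tendsto (fun d : D => (f : Option D → ℝ) (some d)) F
      (𝓝 ((f : Option D → ℝ) none)) := by
  constructor
  · intro h
    rw [tendsto_nhds]
    intro V hV hmem
    exact (h.isOpen_preimage V hV) hmem
  · intro h
    rw [continuous_def]
    intro V hV hmem
    exact h (hV.mem_nhds hmem)

theorem t35_nsp (hF : F ≤ cofinite) : T35Space (NSp F) := by
  have h1 : T1Space (NSp F) := by
    refine ⟨fun x => ?_⟩
    rw [← isOpen_compl_iff]
    intro hx
    refine hF ?_
    rw [mem_cofinite]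
    refine (Set.finite_empty.union (Set.Finite.preimage (Set.injOn_of_injective
      (Option.some_injective D)) (Set.finite_singleton (x : Option D)))).subset ?_
    intro d hd
    refine Or.inr ?_
    by_contra hcon
    exact hd hcon
  have h2 : NormalSpace (NSp F) := by
    refine ⟨fun A B hA hB hAB => ?_⟩
    by_cases hn : (none : Option D) ∈ (A : Set (Option D))
    · have hnB : (none : Option D) ∉ (B : Set (Option D)) := fun h =>
        Set.disjoint_left.1 hAB hn h
      exact ⟨Bᶜ, B, hB.isOpen_compl, isOpen_of_notMem F hnB, Set.subset_compl_iff_disjoint_right.2 hAB,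
        subset_rfl, disjoint_compl_left⟩
    · exact ⟨A, Aᶜ, isOpen_of_notMem F hn, hA.isOpen_compl, subset_rfl,
        Set.subset_compl_iff_disjoint_left.2 hAB, disjoint_compl_right⟩
  have h3 : T4Space (NSp F) := {}
  infer_instance

theorem finite_of_compact {K : Set (NSp F)} (hK : IsCompact K)
    (h : (none : Option D) ∉ (K : Set (Option D))) : K.Finite := by
  obtain ⟨t, ht⟩ := hK.elim_finite_subcover (fun x : K => ({(x : NSp F)} : Set (NSp F)))
    (fun x => isOpen_of_notMem F (fun hx => h (by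
      have : (none : Option D) = (x : NSp F) := hx
      rw [this]; exact x.2)))
    (fun x hx => Set.mem_iUnion.2 ⟨⟨x, hx⟩, rfl⟩)
  exact (Set.Finite.biUnion t.finite_toSet fun x _ => Set.finite_singleton _).subset ht

theorem compact_of_finite {K : Set (NSp F)} 
    (h : ∀ U : Set (NSp F), IsOpen U → (none : Option D) ∈ (U : Set (Option D)) →
      (K \ U).Finite) (hn : (none : Option D) ∈ (K : Set (Option D))) : IsCompact K := by
  refine isCompact_of_finite_subcover fun {ι} U hU hKU => ?_
  obtain ⟨i0, hi0⟩ := Set.mem_iUnion.1 (hKU hn)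
  have hfin := h (U i0) (hU i0) hi0
  obtain ⟨t, ht⟩ := hfin.isCompact.elim_finite_subcover U hU
    ((Set.sdiff_subset).trans hKU)
  classical
  refine ⟨insert i0 t, fun x hx => ?_⟩
  by_cases hx0 : x ∈ U i0
  · exact Set.mem_biUnion (Finset.mem_insert_self _ _) hx0
  · obtain ⟨i, hi, hxi⟩ := Set.mem_iUnion₂.1 (ht ⟨hx, hx0⟩)
    exact Set.mem_biUnion (Finset.mem_insert_of_mem hi) hxi

end

/-- The filter of the metric fan, together with another filter. -/
def fanF {D0 : Type} (F0 : Filter D0) : Filter (((ℕ × ℕ) × Option ℕ) ⊕ D0) :=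
  map Sum.inl (comap (fun p : (ℕ × ℕ) × Option ℕ => p.1.1) atTop) ⊔ map Sum.inr F0

theorem fanF_le_cofinite {D0 : Type} {F0 : Filter D0} (h : F0 ≤ cofinite) :
    fanF F0 ≤ cofinite := by
  refine sup_le ?_ ?_
  · rw [map_le_iff_le_comap, Function.Injective.comap_cofinite_eq Sum.inl_injective,
      le_cofinite_iff_compl_singleton_mem]
    rintro ⟨⟨n, i⟩, o⟩
    rw [mem_comap]
    refine ⟨Set.Ioi n, Ioi_mem_atTop n, ?_⟩
    intro p hp hpe
    rw [Set.mem_singleton_iff] at hpe
    rw [hpe] at hp
    exact lt_irrefl n hp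
  · rw [map_le_iff_le_comap, Function.Injective.comap_cofinite_eq Sum.inr_injective]
    exact h

/-- The metric fan has a countable k-network. -/
theorem fan_network : ∃ 𝒩 : Set (Set (NSp (fanF (⊥ : Filter Empty)))), 𝒩.Countable ∧
      ∀ K U : Set (NSp (fanF (⊥ : Filter Empty))), IsCompact K → IsOpen U → K ⊆ U →
        ∃ F : Set (Set (NSp (fanF (⊥ : Filter Empty)))), F.Finite ∧ F ⊆ 𝒩 ∧ K ⊆ ⋃₀ F ∧
          ⋃₀ F ⊆ U := by
  let D := ((ℕ × ℕ) × Option ℕ) ⊕ Empty
  have hcount : Countable (NSp (fanF (⊥ : Filter Empty))) :=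
    inferInstanceAs (Countable (Option (((ℕ × ℕ) × Option ℕ) ⊕ Empty)))
  let V : ℕ → Set (NSp (fanF (⊥ : Filter Empty))) := fun n =>
    ({x : Option D | ∀ p : (ℕ × ℕ) × Option ℕ, x = some (Sum.inl p) → n ≤ p.1.1} : Set (Option D))
  refine ⟨(Set.range fun x : NSp (fanF (⊥ : Filter Empty)) => {x}) ∪ Set.range V,
    (Set.countable_range _).union (Set.countable_range _), ?_⟩
  intro K U hK hU hKU
  by_cases hn : (none : Option D) ∈ (U : Set (Option D))
  · have h1 := hU hn
    have h2 : (fun p : (ℕ × ℕ) × Option ℕ => (Sum.inl p : D)) ⁻¹'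
        ((some : D → Option D) ⁻¹' (U : Set (Option D))) ∈
        comap (fun p : (ℕ × ℕ) × Option ℕ => p.1.1) atTop := (mem_sup.1 h1).1
    obtain ⟨s, hs, hsub⟩ := mem_comap.1 h2
    obtain ⟨n, hn'⟩ := mem_atTop_sets.1 hs
    have hVU : V n ⊆ U := by
      intro x hx
      have hx' : ∀ p : (ℕ × ℕ) × Option ℕ, (x : Option D) = some (Sum.inl p) → n ≤ p.1.1 := hx
      match x, hx' with
      | none, _ => exact hn
      | some (Sum.inl p), hx' => exact hsub (hn' p.1.1 (hx' p rfl))
      | some (Sum.inr e), _ => exact e.elim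
    have hVn : (none : Option D) ∈ (V n : Set (Option D)) := by
      intro p hp
      exact absurd hp (by simp)
    have hVo : IsOpen (V n) := by
      intro _
      refine mem_sup.2 ⟨?_, ?_⟩
      · rw [mem_map, mem_comap]
        refine ⟨Set.Ici n, Ici_mem_atTop n, ?_⟩
        intro p hp q hq
        have : p = q := Sum.inl_injective (Option.some_injective _ hq)
        rw [← this]
        exact hp
      · rw [map_bot]; exact mem_bot
    have hfin : (K \ V n).Finite := by
      refine finite_of_compact _ (hK.diff hVo) ?_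
      intro h
      exact h.2 hVn
    refine ⟨insert (V n) ((fun x => {x}) '' (K \ V n)), (hfin.image _).insert _, ?_, ?_, ?_⟩
    · rintro _ (rfl | ⟨x, _, rfl⟩)
      · exact Or.inr ⟨n, rfl⟩
      · exact Or.inl ⟨x, rfl⟩
    · intro x hx
      by_cases hxV : x ∈ V n
      · exact ⟨V n, Set.mem_insert _ _, hxV⟩
      · exact ⟨{x}, Set.mem_insert_of_mem _ ⟨x, ⟨hx, hxV⟩, rfl⟩, rfl⟩
    · rintro x ⟨_, (rfl | ⟨y, hy, rfl⟩), hx⟩
      · exact hVU hx
      · rw [Set.mem_singleton_iff] at hx
        rw [hx]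
        exact hKU hy.1
  · have hfin : K.Finite := finite_of_compact _ hK fun h => hn (hKU h)
    refine ⟨(fun x => {x}) '' K, hfin.image _, ?_, ?_, ?_⟩
    · rintro _ ⟨x, _, rfl⟩
      exact Or.inl ⟨x, rfl⟩
    · intro x hx
      exact ⟨{x}, ⟨x, hx, rfl⟩, rfl⟩
    · rintro x ⟨_, ⟨y, hy, rfl⟩, hx⟩
      rw [Set.mem_singleton_iff] at hx
      rw [hx]
      exact hKU hy

end Pool.Agent.AtEq
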