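import Pool.Agent.AtEq.Push

set_option autoImplicit false

/-! One step of the back-and-forth construction. -/

namespace Pool.Agent.AtEq

open Tower Filter Topology

/-- Data of an absorbing set. -/
structure Absorber where
  Y : Set ℕ
  ξ : ℕ → ℕ
  rk_xi : ∀ m, rk (ξ m) = m
  xi_notin : ∀ m, ξ m ∉ Y
  big : Big Y 0
  S : ℕ → ℕ → Set (ℕ → ℝ)
  closed : ∀ k r, IsClosed (S k r)
  mono : ∀ k r r', r ≤ r' → S k r ⊆ S k r'
  zero : ∀ r, ∀ z ∈ S 0 r, ∀ i ∈ Y, r ≤ rk i → z i = 0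
  abs : ∀ z : ℕ → ℝ, (∃ m, ∀ i, m ≤ rk i → i ∉ Set.range ξ → z i = 0) →
    ((∀ k, ∃ r, z ∈ S k r) ↔ Tendsto (fun m => z (ξ m)) atTop (𝓝 0))

/-- The absorbing set itself. -/
def Absorber.Om (A : Absorber) : Set (ℕ → ℝ) := {z | ∀ k, ∃ r, z ∈ A.S k r}

/-- A set which vanishes on many `Y`-coordinates. -/
def Thin (A : Absorber) (K : Set (ℕ → ℝ)) : Prop :=
  ∃ (N : Set ℕ) (r : ℕ), N ⊆ A.Y ∧ Big N r ∧ ∀ x ∈ K, ∀ i ∈ N, x i = 0

structure Good (A B : Absorber) (H : FH (ℕ → ℝ) (ℕ → ℝ)) (K L : Set (ℕ → ℝ)) : Prop where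
  clK : IsClosed K
  clL : IsClosed L
  iff : ∀ x, x ∈ K ↔ H.h x ∈ L
  thK : Thin A K
  thL : Thin B L
  om : ∀ x ∈ K, (x ∈ A.Om ↔ H.h x ∈ B.Om)

theorem Good.symm {A B : Absorber} {H : FH (ℕ → ℝ) (ℕ → ℝ)} {K L : Set (ℕ → ℝ)}
    (g : Good A B H K L) : Good B A H.symm L K where
  clK := g.clL
  clL := g.clK
  iff x := by
    rw [g.iff]
    simp
  thK := g.thL
  thL := g.thK
  om x hx := by
    have h1 : H.h.symm x ∈ K := by rw [g.iff]; simpa using hx
    rw [FH.symm_h, g.om _ h1]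
    simp

/-- The three shears which carry `(z, 0)` to `(q z, 0)`. -/
theorem exists_shear (q ρ : (ℕ → ℝ) → (ℕ → ℝ)) (M : ℕ) (hq : Continuous q) (hqf : FinU q)
    (hρ : Continuous ρ) (hρf : FinU ρ) (hinv : ∀ z, ρ (q z) = z) (hcl : ∀ z, rel M (q z) z) :
    ∃ χ : FH ((ℕ → ℝ) × (ℕ → ℝ)) ((ℕ → ℝ) × (ℕ → ℝ)),
      (∀ z, χ.h (z, 0) = (q z, 0)) ∧ (∀ p, rel M (χ.h p).1 p.1) ∧
      (∀ p, rel M (χ.h.symm p).1 p.1) := by
  have hcut := continuous_cut M
  let s1 : FH ((ℕ → ℝ) × (ℕ → ℝ)) ((ℕ → ℝ) × (ℕ → ℝ)) :=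
    { h :=
      { toFun := fun p => (p.1, p.2 + q p.1)
        invFun := fun p => (p.1, p.2 - q p.1)
        left_inv := fun p => by ext <;> simp
        right_inv := fun p => by ext <;> simp
        continuous_toFun := by fun_prop
        continuous_invFun := by fun_prop }
      fin := FinU.fst.prodMk (FinU.snd.add (hqf.comp FinU.fst))
      fin' := FinU.fst.prodMk (FinU.snd.sub (hqf.comp FinU.fst)) }
  let s2 : FH ((ℕ → ℝ) × (ℕ → ℝ)) ((ℕ → ℝ) × (ℕ → ℝ)) :=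
    { h :=
      { toFun := fun p => (p.1 + cut M (p.2 - ρ p.2), p.2)
        invFun := fun p => (p.1 - cut M (p.2 - ρ p.2), p.2)
        left_inv := fun p => by ext <;> simp
        right_inv := fun p => by ext <;> simp
        continuous_toFun := by fun_prop
        continuous_invFun := by fun_prop }
      fin := (FinU.fst.add ((finU_cut M).comp (FinU.snd.sub (hρf.comp FinU.snd)))).prodMk FinU.snd
      fin' := (FinU.fst.sub ((finU_cut M).comp (FinU.snd.sub (hρf.comp FinU.snd)))).prodMk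
        FinU.snd }
  let s3 : FH ((ℕ → ℝ) × (ℕ → ℝ)) ((ℕ → ℝ) × (ℕ → ℝ)) :=
    { h :=
      { toFun := fun p => (p.1, p.2 - p.1)
        invFun := fun p => (p.1, p.2 + p.1)
        left_inv := fun p => by ext <;> simp
        right_inv := fun p => by ext <;> simp
        continuous_toFun := by fun_prop
        continuous_invFun := by fun_prop }
      fin := FinU.fst.prodMk (FinU.snd.sub FinU.fst)
      fin' := FinU.fst.prodMk (FinU.snd.add FinU.fst) }
  refine ⟨(s1.trans s2).trans s3, ?_, ?_, ?_⟩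
  · intro z
    change ((z + cut M ((0 + q z) - ρ (0 + q z)) : ℕ → ℝ),
      ((0 + q z) - (z + cut M ((0 + q z) - ρ (0 + q z))) : ℕ → ℝ)) = (q z, 0)
    have h1 : z + cut M (q z - z) = q z := by
      funext i
      simp only [Pi.add_apply, cut, Pi.sub_apply]
      split_ifs with h
      · rw [hcl z i h]; ring
      · ring
    rw [zero_add, hinv z, h1, sub_self]
  · intro p i hi
    change p.1 i + cut M _ i = p.1 i
    simp [cut, hi]
  · intro p i hi
    change p.1 i - cut M _ i = p.1 i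
    simp [cut, hi]

/-- The forward step. -/
theorem forward {A B : Absorber} {H : FH (ℕ → ℝ) (ℕ → ℝ)} {K L : Set (ℕ → ℝ)}
    (g : Good A B H K L) (n N : ℕ) :
    ∃ (H' : FH (ℕ → ℝ) (ℕ → ℝ)) (K' L' : Set (ℕ → ℝ)), Good A B H' K' L' ∧ K ⊆ K' ∧ L ⊆ L' ∧
      A.S 0 n ⊆ K' ∧ (∀ x ∈ K, H'.h x = H.h x) ∧ (∀ x, rel N (H'.h x) (H.h x)) ∧
      (∀ x, rel N (H'.h.symm x) (H.h.symm x)) := by
  -- closeness parameters
  obtain ⟨M1, hM1⟩ := H.fin' N
  set M' := max N M1 with hM'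
  have hM1' : ∀ x y, rel M' x y → rel N (H.h.symm x) (H.h.symm y) := fun x y h =>
    hM1 x y (mono' _ _ _ _ (le_max_right _ _) h)
  obtain ⟨M2, hM2⟩ := H.fin N
  set M := max M' M2 with hM
  have hM2' : ∀ x y, rel M x y → rel N (H.h x) (H.h y) := fun x y h =>
    hM2 x y (mono' _ _ _ _ (le_max_right _ _) h)
  have hNM : N ≤ M := (le_max_left _ _).trans (le_max_left _ _)
  have hM'M : M' ≤ M := le_max_left _ _
  -- thin sets
  obtain ⟨N1, r1, hN1Y, hN1B, hN1z⟩ := g.thK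
  obtain ⟨N2, r2, hN2Y, hN2B, hN2z⟩ := g.thL
  -- new source set
  set K' : Set (ℕ → ℝ) := K ∪ A.S 0 n with hK'
  have hK'c : IsClosed K' := g.clK.union (A.closed 0 n)
  let N1' : Set ℕ := {i | i ∈ N1 ∧ max M n ≤ rk i}
  have hN1'B : Big N1' (max r1 (max M n)) := hN1B.inter _
  have hN1'z : ∀ x ∈ K', ∀ i ∈ N1', x i = 0 := by
    rintro x (hx | hx) i ⟨hi, hri⟩
    · exact hN1z x hx i hi
    · exact A.zero n x hx i (hN1Y hi) ((le_max_right _ _).trans hri)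
  have hN1'M : ∀ i, i < M → i ∉ N1' := fun i hi h =>
    absurd (((le_max_left _ _).trans h.2).trans (rk_le i)) (not_le.2 hi)
  -- the push
  let r := max r2 M
  let N2' : Set ℕ := {i | i ∈ N2 ∧ r ≤ rk i}
  have hN2'B : Big N2' r := by
    have := hN2B.inter r
    rwa [max_eq_right (le_max_left _ _)] at this
  let T : ℕ → ℕ → Set (ℕ → ℝ) := fun k s => L ∪ (H.h.symm ⁻¹' (K' ∩ A.S k s))
  have hTc : ∀ k s, IsClosed (T k s) := fun k s =>
    g.clL.union ((hK'c.inter (A.closed k s)).preimage H.h.symm.continuous)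
  have hTm : ∀ k s s', s ≤ s' → T k s ⊆ T k s' := fun k s s' hs =>
    Set.union_subset_union_right _ (Set.preimage_mono
      (Set.inter_subset_inter_right _ (A.mono k s s' hs)))
  obtain ⟨q, ρ, N', hqc, hqf, hρc, hρf, hinv, hqL, hqr, hN'sub, hN'B, hqz, hqO⟩ :=
    exists_push r L g.clL N2' (fun i hi => hi.2) hN2'B (fun z hz i hi => hN2z z hz i hi.1) B.ξ
      B.rk_xi (fun m hm => B.xi_notin m (hN2Y hm.1)) T hTc hTm (fun k s => Set.subset_union_left)
  have hN'r : ∀ i, i < M → i ∉ N' := fun i hi h =>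
    absurd (((le_max_right _ _).trans (hN'sub h).2).trans (rk_le i)) (not_le.2 hi)
  obtain ⟨χ, hχ0, hχ1, hχ2⟩ := exists_shear q ρ M hqc hqf hρc hρf hinv
    (fun z => mono' _ _ _ _ (le_max_right _ _) (hqr z))
  obtain ⟨e1, he1z, he1, he1s⟩ := exists_reindex N1' hN1'B.infinite
  obtain ⟨e2, he2z, he2, he2s⟩ := exists_reindex N' hN'B.infinite
  let H' : FH (ℕ → ℝ) (ℕ → ℝ) :=
    ((e1.trans (H.prod (FH.refl (ℕ → ℝ)))).trans χ).trans e2.symm
  have hH' : ∀ x, H'.h x = e2.h.symm (χ.h (H.h (e1.h x).1, (e1.h x).2)) := fun x => rfl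
  have hH's : ∀ x, H'.h.symm x = e1.h.symm (H.h.symm (χ.h.symm (e2.h x)).1, (χ.h.symm (e2.h x)).2) :=
    fun x => rfl
  have hval : ∀ x ∈ K', H'.h x = q (H.h x) := by
    intro x hx
    rw [hH', he1z x (hN1'z x hx), hχ0, ← he2z (q (H.h x)) (hqz _), Homeomorph.symm_apply_apply]
  have hvalK : ∀ x ∈ K, H'.h x = H.h x := by
    intro x hx
    rw [hval x (Or.inl hx), hqL _ ((g.iff x).1 hx)]
  have hKiff : ∀ x, x ∈ K' ↔ H'.h x ∈ (H'.h.symm ⁻¹' K') := by
    intro x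
    simp
  refine ⟨H', K', H'.h.symm ⁻¹' K', ⟨hK'c, hK'c.preimage H'.h.symm.continuous, hKiff, ?_, ?_, ?_⟩,
    Set.subset_union_left, ?_, Set.subset_union_right, hvalK, ?_, ?_⟩
  · exact ⟨N1', _, fun i hi => hN1Y hi.1, hN1'B, hN1'z⟩
  · refine ⟨N', r, fun i hi => hN2Y (hN'sub hi).1, hN'B, ?_⟩
    intro z hz i hi
    have h1 := hval _ hz
    rw [Homeomorph.apply_symm_apply] at h1
    rw [h1]
    exact hqz _ i hi
  · intro x hx
    by_cases hxK : x ∈ K
    · rw [hvalK x hxK]; exact g.om x hxK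
    · have hxL : H.h x ∉ L := fun h => hxK ((g.iff x).2 h)
      obtain ⟨hm, ht⟩ := hqO (H.h x) hxL
      rw [hval x hx]
      have h1 : q (H.h x) ∈ B.Om ↔ Tendsto (fun m => q (H.h x) (B.ξ m)) atTop (𝓝 0) := B.abs _ hm
      rw [h1, ht]
      have h2 : ∀ k s, H.h x ∈ T k s ↔ x ∈ A.S k s := by
        intro k s
        constructor
        · rintro (h | h)
          · exact absurd h hxL
          · have : H.h.symm (H.h x) ∈ K' ∩ A.S k s := h
            rw [Homeomorph.symm_apply_apply] at this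
            exact this.2
        · intro h
          refine Or.inr ?_
          change H.h.symm (H.h x) ∈ K' ∩ A.S k s
          rw [Homeomorph.symm_apply_apply]
          exact ⟨hx, h⟩
      simp only [h2]
      rfl
  · intro z hz
    change H'.h.symm z ∈ K'
    have h1 : H.h.symm z ∈ K := by rw [g.iff]; simpa using hz
    have h2 := hvalK _ h1
    rw [Homeomorph.apply_symm_apply] at h2
    rw [← h2, Homeomorph.symm_apply_apply]
    exact Or.inl h1
  · -- closeness of `H'`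
    intro x
    have c1 : rel M (e1.h x).1 x := fun i hi => he1 x i (hN1'M i hi)
    have c2 : rel N (H.h (e1.h x).1) (H.h x) := hM2' _ _ c1
    have c3 : rel M (χ.h (H.h (e1.h x).1, (e1.h x).2)).1 (H.h (e1.h x).1) := hχ1 _
    have c4 : rel M (H'.h x) (χ.h (H.h (e1.h x).1, (e1.h x).2)).1 := by
      intro i hi
      rw [hH']
      exact he2s _ i (hN'r i hi)
    exact trans' _ _ _ _ (mono' _ _ _ _ hNM (trans' _ _ _ _ c4 c3)) c2
  · intro x
    have c1 : rel M (e2.h x).1 x := fun i hi => he2 x i (hN'r i hi)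
    have c2 : rel M (χ.h.symm (e2.h x)).1 (e2.h x).1 := hχ2 _
    have c3 : rel N (H.h.symm (χ.h.symm (e2.h x)).1) (H.h.symm x) :=
      hM1' _ _ (mono' _ _ _ _ hM'M (trans' _ _ _ _ c2 c1))
    have c4 : rel M (H'.h.symm x) (H.h.symm (χ.h.symm (e2.h x)).1) := by
      intro i hi
      rw [hH's]
      exact he1s _ i (hN1'M i hi)
    exact trans' _ _ _ _ (mono' _ _ _ _ hNM c4) c3

/-- A double step. -/
theorem both {A B : Absorber} {H : FH (ℕ → ℝ) (ℕ → ℝ)} {K L : Set (ℕ → ℝ)}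
    (g : Good A B H K L) (n N : ℕ) :
    ∃ (H' : FH (ℕ → ℝ) (ℕ → ℝ)) (K' L' : Set (ℕ → ℝ)), Good A B H' K' L' ∧ K ⊆ K' ∧ L ⊆ L' ∧
      A.S 0 n ⊆ K' ∧ B.S 0 n ⊆ L' ∧ (∀ x ∈ K, H'.h x = H.h x) ∧ (∀ x, rel N (H'.h x) (H.h x)) ∧
      (∀ x, rel N (H'.h.symm x) (H.h.symm x)) := by
  obtain ⟨H1, K1, L1, g1, hK1, hL1, hS1, he1, hc1, hd1⟩ := forward g n N
  obtain ⟨H2, L2, K2, g2, hL2, hK2, hS2, he2, hc2, hd2⟩ := forward g1.symm n N
  refine ⟨H2.symm, K2, L2, g2.symm, hK1.trans hK2, hL1.trans hL2, hS1.trans hK2, hS2, ?_, ?_, ?_⟩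
  · intro x hx
    have h1 := he2 (H1.h x) ((g1.iff x).1 (hK1 hx))
    rw [FH.symm_h, Homeomorph.symm_apply_apply] at h1
    rw [FH.symm_h]
    rw [← he1 x hx]
    rw [Homeomorph.symm_apply_eq]
    exact h1.symm
  · intro x
    exact trans' _ _ _ _ (hd2 x) (hc1 x)
  · intro x
    exact trans' _ _ _ _ (hc2 x) (hd1 x)

end Pool.Agent.AtEq
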