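import Mathlib

set_option autoImplicit false

/-! Finitary homeomorphisms between countable powers of the real line. -/

namespace Pool.Agent.AtEq

/-- A decreasing sequence of equivalence relations. -/
class Tower (α : Type) where
  rel : ℕ → α → α → Prop
  rfl' : ∀ t x, rel t x x
  symm' : ∀ t x y, rel t x y → rel t y x
  trans' : ∀ t x y z, rel t x y → rel t y z → rel t x z
  mono' : ∀ s t x y, s ≤ t → rel t x y → rel s x y

set_option linter.unusedVariables false

open Tower

instance instTowerSeq : Tower (ℕ → ℝ) where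
  rel t x y := ∀ i, i < t → x i = y i
  rfl' _ _ _ _ := rfl
  symm' _ _ _ h i hi := (h i hi).symm
  trans' _ _ _ _ h h' i hi := (h i hi).trans (h' i hi)
  mono' _ _ _ _ hst h i hi := h i (hi.trans_le hst)

instance instTowerProd {α β : Type} [Tower α] [Tower β] : Tower (α × β) where
  rel t x y := rel t x.1 y.1 ∧ rel t x.2 y.2
  rfl' t x := ⟨rfl' t _, rfl' t _⟩
  symm' t x y h := ⟨symm' t _ _ h.1, symm' t _ _ h.2⟩
  trans' t x y z h h' := ⟨trans' t _ _ _ h.1 h'.1, trans' t _ _ _ h.2 h'.2⟩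
  mono' s t x y hst h := ⟨mono' s t _ _ hst h.1, mono' s t _ _ hst h.2⟩

theorem rel_seq (t : ℕ) (x y : ℕ → ℝ) : rel t x y ↔ ∀ i, i < t → x i = y i := Iff.rfl

theorem rel_prod {α β : Type} [Tower α] [Tower β] (t : ℕ) (x y : α × β) :
    rel t x y ↔ rel t x.1 y.1 ∧ rel t x.2 y.2 := Iff.rfl

/-- Uniform continuity with respect to the towers. -/
def FinU {α β : Type} [Tower α] [Tower β] (F : α → β) : Prop :=
  ∀ t, ∃ s, ∀ x y, rel s x y → rel t (F x) (F y)

section
variable {α β γ : Type} [Tower α] [Tower β] [Tower γ]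

theorem FinU.id : FinU (fun x : α => x) := fun t => ⟨t, fun _ _ h => h⟩

theorem FinU.comp {G : β → γ} {F : α → β} (hG : FinU G) (hF : FinU F) :
    FinU (fun x => G (F x)) := by
  intro t
  obtain ⟨s, hs⟩ := hG t
  obtain ⟨u, hu⟩ := hF s
  exact ⟨u, fun x y h => hs _ _ (hu _ _ h)⟩

theorem FinU.fst : FinU (fun x : α × β => x.1) := fun t => ⟨t, fun _ _ h => h.1⟩
theorem FinU.snd : FinU (fun x : α × β => x.2) := fun t => ⟨t, fun _ _ h => h.2⟩

theorem FinU.prodMk {F : α → β} {G : α → γ} (hF : FinU F) (hG : FinU G) :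
    FinU (fun x => (F x, G x)) := by
  intro t
  obtain ⟨s, hs⟩ := hF t
  obtain ⟨u, hu⟩ := hG t
  exact ⟨max s u, fun x y h => ⟨hs _ _ (mono' _ _ _ _ (le_max_left _ _) h),
    hu _ _ (mono' _ _ _ _ (le_max_right _ _) h)⟩⟩

theorem FinU.of_coord {F : α → (ℕ → ℝ)}
    (h : ∀ i, ∃ s, ∀ x y, rel s x y → F x i = F y i) : FinU F := by
  choose s hs using h
  intro t
  refine ⟨(Finset.range t).sup s, fun x y hxy i hi => hs i x y ?_⟩
  exact mono' _ _ _ _ (Finset.le_sup (f := s) (Finset.mem_range.2 hi)) hxy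

theorem FinU.coord {F : α → (ℕ → ℝ)} (h : FinU F) (i : ℕ) :
    ∃ s, ∀ x y, rel s x y → F x i = F y i := by
  obtain ⟨s, hs⟩ := h (i + 1)
  exact ⟨s, fun x y hxy => hs x y hxy i (Nat.lt_succ_self i)⟩

theorem FinU.add {F G : α → (ℕ → ℝ)} (hF : FinU F) (hG : FinU G) :
    FinU (fun x => F x + G x) := by
  intro t
  obtain ⟨s, hs⟩ := hF t
  obtain ⟨u, hu⟩ := hG t
  refine ⟨max s u, fun x y h i hi => ?_⟩
  have h1 := hs _ _ (mono' _ _ _ _ (le_max_left _ _) h) i hi
  have h2 := hu _ _ (mono' _ _ _ _ (le_max_right _ _) h) i hi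
  simp only [Pi.add_apply, h1, h2]

theorem FinU.sub {F G : α → (ℕ → ℝ)} (hF : FinU F) (hG : FinU G) :
    FinU (fun x => F x - G x) := by
  intro t
  obtain ⟨s, hs⟩ := hF t
  obtain ⟨u, hu⟩ := hG t
  refine ⟨max s u, fun x y h i hi => ?_⟩
  have h1 := hs _ _ (mono' _ _ _ _ (le_max_left _ _) h) i hi
  have h2 := hu _ _ (mono' _ _ _ _ (le_max_right _ _) h) i hi
  simp only [Pi.sub_apply, h1, h2]

end

/-- Kill the coordinates below `M`. -/
def cut (M : ℕ) (z : ℕ → ℝ) : ℕ → ℝ := fun i => if i < M then 0 else z i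

theorem continuous_cut (M : ℕ) : Continuous (cut M) := by
  refine continuous_pi fun i => ?_
  by_cases h : i < M
  · simpa only [cut, h, if_true] using continuous_const
  · simpa only [cut, h, if_false] using continuous_apply i

theorem finU_cut (M : ℕ) : FinU (cut M) := by
  refine fun t => ⟨t, fun x y h i hi => ?_⟩
  simp only [cut]
  split_ifs
  · rfl
  · exact h i hi

/-- Finitary homeomorphisms. -/
structure FH (α β : Type) [TopologicalSpace α] [TopologicalSpace β] [Tower α] [Tower β] where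
  h : α ≃ₜ β
  fin : FinU h
  fin' : FinU h.symm

namespace FH
variable {α β γ δ : Type} [TopologicalSpace α] [TopologicalSpace β] [TopologicalSpace γ]
  [TopologicalSpace δ] [Tower α] [Tower β] [Tower γ] [Tower δ]

def refl (α : Type) [TopologicalSpace α] [Tower α] : FH α α :=
  ⟨Homeomorph.refl α, FinU.id, FinU.id⟩

def symm (e : FH α β) : FH β α := ⟨e.h.symm, e.fin', e.fin⟩

def trans (e : FH α β) (e' : FH β γ) : FH α γ :=
  ⟨e.h.trans e'.h, e'.fin.comp e.fin, e.fin'.comp e'.fin'⟩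

def prod (e : FH α β) (e' : FH γ δ) : FH (α × γ) (β × δ) :=
  ⟨e.h.prodCongr e'.h, (e.fin.comp FinU.fst).prodMk (e'.fin.comp FinU.snd),
    (e.fin'.comp FinU.fst).prodMk (e'.fin'.comp FinU.snd)⟩

@[simp] theorem symm_h (e : FH α β) : e.symm.h = e.h.symm := rfl
@[simp] theorem trans_h (e : FH α β) (e' : FH β γ) (x : α) : (e.trans e').h x = e'.h (e.h x) := rfl
@[simp] theorem trans_symm_h (e : FH α β) (e' : FH β γ) (x : γ) :
    (e.trans e').h.symm x = e.h.symm (e'.h.symm x) := rfl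
@[simp] theorem prod_h (e : FH α β) (e' : FH γ δ) (x : α × γ) :
    (e.prod e').h x = (e.h x.1, e'.h x.2) := rfl
@[simp] theorem prod_symm_h (e : FH α β) (e' : FH γ δ) (x : β × δ) :
    (e.prod e').h.symm x = (e.h.symm x.1, e'.h.symm x.2) := rfl
@[simp] theorem refl_h (x : α) : (refl α).h x = x := rfl
@[simp] theorem refl_symm_h (x : α) : (refl α).h.symm x = x := rfl

end FH

/-- The limit of a convergent sequence of finitary homeomorphisms. -/
theorem exists_limit (H : ℕ → (ℕ → ℝ) ≃ₜ (ℕ → ℝ)) (N : ℕ → ℕ) (hmono : Monotone N)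
    (hge : ∀ n, n ≤ N n)
    (h1 : ∀ n x, rel (N n) (H (n + 1) x) (H n x))
    (h2 : ∀ n x, rel (N n) ((H (n + 1)).symm x) ((H n).symm x))
    (h3 : ∀ n x y, rel (N n) x y → rel n (H n x) (H n y))
    (h4 : ∀ n x y, rel (N n) x y → rel n ((H n).symm x) ((H n).symm y)) :
    ∃ G : (ℕ → ℝ) ≃ₜ (ℕ → ℝ), ∀ n x, rel (N n) (G x) (H n x) := by
  -- general facts about a sequence of maps
  have key : ∀ f : ℕ → (ℕ → ℝ) → (ℕ → ℝ), (∀ n x, rel (N n) (f (n + 1) x) (f n x)) →
      ∀ n x, rel (N n) (fun i => f (i + 1) x i) (f n x) := by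
    intro f hf n x
    have hstep : ∀ n m, n ≤ m → rel (N n) (f m x) (f n x) := by
      intro n m hnm
      induction m, hnm using Nat.le_induction with
      | base => exact rfl' _ _
      | succ m hm ih => exact trans' _ _ _ _ (mono' _ _ _ _ (hmono hm) (hf m x)) ih
    intro i hi
    rcases le_total n (i + 1) with h | h
    · exact hstep n (i + 1) h i hi
    · exact (hstep (i + 1) n h i ((Nat.lt_succ_self i).trans_le (hge _))).symm
  let F : (ℕ → ℝ) → (ℕ → ℝ) := fun x i => H (i + 1) x i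
  let F' : (ℕ → ℝ) → (ℕ → ℝ) := fun x i => (H (i + 1)).symm x i
  have hF : ∀ n x, rel (N n) (F x) (H n x) := key (fun n => H n) h1
  have hF' : ∀ n x, rel (N n) (F' x) ((H n).symm x) := key (fun n => (H n).symm) h2
  have hinv : ∀ x, F' (F x) = x := by
    intro x
    funext i
    have e1 : rel (i + 1) (F' (F x)) ((H (i + 1)).symm (F x)) := mono' _ _ _ _ (hge _) (hF' _ _)
    have e2 : rel (i + 1) ((H (i + 1)).symm (F x)) ((H (i + 1)).symm (H (i + 1) x)) :=
      h4 _ _ _ (hF _ _)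
    have e3 := trans' _ _ _ _ e1 e2
    rw [Homeomorph.symm_apply_apply] at e3
    exact e3 i (Nat.lt_succ_self i)
  have hinv' : ∀ x, F (F' x) = x := by
    intro x
    funext i
    have e1 : rel (i + 1) (F (F' x)) (H (i + 1) (F' x)) := mono' _ _ _ _ (hge _) (hF _ _)
    have e2 : rel (i + 1) (H (i + 1) (F' x)) (H (i + 1) ((H (i + 1)).symm x)) :=
      h3 _ _ _ (hF' _ _)
    have e3 := trans' _ _ _ _ e1 e2
    rw [Homeomorph.apply_symm_apply] at e3
    exact e3 i (Nat.lt_succ_self i)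
  have hc : Continuous F :=
    continuous_pi fun i => (continuous_apply i).comp (H (i + 1)).continuous
  have hc' : Continuous F' :=
    continuous_pi fun i => (continuous_apply i).comp (H (i + 1)).symm.continuous
  exact ⟨{ toFun := F, invFun := F', left_inv := hinv, right_inv := hinv',
           continuous_toFun := hc, continuous_invFun := hc' }, hF⟩

end Pool.Agent.AtEq
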