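import Pool.Agent.AtEq.Spaces

set_option autoImplicit false

/-! The branch filter on the binary tree. -/

namespace Pool.Agent.AtEq

open Filter Topology

/-- The nodes along the branch `x`. -/
def Br (x : ℕ → Bool) : Set (List Bool) := {l | ∀ i (h : i < l.length), l[i] = x i}

/-- Sets containing all nodes outside finitely many branches. -/
def brF : Filter (List Bool) where
  sets := {s | ∃ t : Set (ℕ → Bool), t.Finite ∧ ∀ l, (∀ x ∈ t, l ∉ Br x) → l ∈ s}
  univ_sets := ⟨∅, Set.finite_empty, fun _ _ => trivial⟩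
  sets_of_superset := by
    rintro s s' ⟨t, ht, h⟩ hss
    exact ⟨t, ht, fun l hl => hss (h l hl)⟩
  inter_sets := by
    rintro s s' ⟨t, ht, h⟩ ⟨t', ht', h'⟩
    exact ⟨t ∪ t', ht.union ht', fun l hl =>
      ⟨h l fun x hx => hl x (Or.inl hx), h' l fun x hx => hl x (Or.inr hx)⟩⟩

theorem mem_brF (s : Set (List Bool)) :
    s ∈ brF ↔ ∃ t : Set (ℕ → Bool), t.Finite ∧ ∀ l, (∀ x ∈ t, l ∉ Br x) → l ∈ s := Iff.rfl

theorem brF_le_cofinite : brF ≤ cofinite := by
  rw [le_cofinite_iff_compl_singleton_mem]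
  intro l
  refine ⟨{fun i => l.getD i false}, Set.finite_singleton _, fun l' hl' hmem => ?_⟩
  rw [Set.mem_singleton_iff] at hmem
  subst hmem
  refine hl' _ rfl fun i h => ?_
  simp [h]

/-- The node leaving the branch `x` at level `n`. -/
def off (x : ℕ → Bool) (n : ℕ) : List Bool := (List.range n).map x ++ [!(x n)]

theorem off_length (x : ℕ → Bool) (n : ℕ) : (off x n).length = n + 1 := by simp [off]

theorem off_lt (x : ℕ → Bool) (n i : ℕ) (h : i < n) (h' : i < (off x n).length) :
    (off x n)[i] = x i := by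
  simp only [off]
  rw [List.getElem_append_left (by simpa using h)]
  simp

theorem off_eq (x : ℕ → Bool) (n : ℕ) (h' : n < (off x n).length) :
    (off x n)[n] = !(x n) := by
  simp only [off]
  rw [List.getElem_append_right (by simp)]
  simp

theorem off_mem (x y : ℕ → Bool) (n : ℕ) : off x n ∈ Br y ↔ (∀ i < n, x i = y i) ∧ (!(x n)) = y n := by
  constructor
  · intro h
    refine ⟨fun i hi => ?_, ?_⟩
    · have h' : i < (off x n).length := by rw [off_length]; omega
      rw [← h i h', off_lt x n i hi h']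
    · have h' : n < (off x n).length := by rw [off_length]; omega
      rw [← h n h', off_eq x n h']
  · rintro ⟨h1, h2⟩ i hi
    have hi' := hi
    rw [off_length] at hi'
    rcases Nat.lt_succ_iff_lt_or_eq.1 hi' with h | h
    · rw [off_lt x n i h hi, h1 i h]
    · subst h
      rw [off_eq x i hi, h2]

theorem off_subsingleton (x y : ℕ → Bool) : {n | off x n ∈ Br y}.Subsingleton := by
  intro n hn m hm
  rw [Set.mem_ofPred_eq, off_mem] at hn hm
  rcases lt_trichotomy n m with h | h | h
  · have := hm.1 n h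
    rw [← hn.2] at this
    simp at this
  · exact h
  · have := hn.1 m h
    rw [← hm.2] at this
    simp at this

abbrev TD : Type := ((ℕ × ℕ) × Option ℕ) ⊕ List Bool

/-- The second space has no countable k-network. -/
theorem tree_no_network : ¬ ∃ 𝒩 : Set (Set (NSp (fanF brF))), 𝒩.Countable ∧
      ∀ K U : Set (NSp (fanF brF)), IsCompact K → IsOpen U → K ⊆ U →
        ∃ F : Set (Set (NSp (fanF brF))), F.Finite ∧ F ⊆ 𝒩 ∧ K ⊆ ⋃₀ F ∧ ⋃₀ F ⊆ U := by
  rintro ⟨𝒩, hc, hN⟩
  let nd : List Bool → NSp (fanF brF) := fun l => (some (Sum.inr l) : Option TD)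
  have hnd : Function.Injective nd := fun l l' h =>
    Sum.inr_injective (Option.some_injective _ h)
  let pt : NSp (fanF brF) := (none : Option TD)
  let K : (ℕ → Bool) → Set (NSp (fanF brF)) := fun x => insert pt (Set.range fun n => nd (off x n))
  let U : (ℕ → Bool) → Set (NSp (fanF brF)) := fun x => (nd '' Br x)ᶜ
  have hU : ∀ x, IsOpen (U x) := by
    intro x _
    refine mem_sup.2 ⟨?_, ?_⟩
    · rw [mem_map]
      refine univ_mem' fun p hp => ?_
      obtain ⟨l, _, hl⟩ := hp
      exact Sum.inr_ne_inl (Option.some_injective _ hl)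
    · rw [mem_map, mem_brF]
      refine ⟨{x}, Set.finite_singleton _, fun l hl => ?_⟩
      rintro ⟨l', hl', he⟩
      have := hnd he
      subst this
      exact hl x rfl hl'
  have hK : ∀ x, IsCompact (K x) := by
    intro x
    refine compact_of_finite _ (fun V hV hn => ?_) (Set.mem_insert _ _)
    have h1 := (mem_sup.1 (hV hn)).2
    rw [mem_map, mem_brF] at h1
    obtain ⟨t, ht, hsub⟩ := h1
    have hfin : (⋃ y ∈ t, {n | off x n ∈ Br y}).Finite :=
      ht.biUnion fun y _ => (off_subsingleton x y).finite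
    refine (hfin.image fun n => nd (off x n)).subset ?_
    rintro z ⟨hz, hzV⟩
    rcases hz with rfl | ⟨n, rfl⟩
    · exact absurd hn hzV
    · refine ⟨n, ?_, rfl⟩
      by_contra hcon
      refine hzV (hsub (off x n) fun y hy hmem => hcon ?_)
      exact Set.mem_biUnion hy hmem
  have hKU : ∀ x, K x ⊆ U x := by
    rintro x z (rfl | ⟨n, rfl⟩) ⟨l, hl, he⟩
    · exact absurd (show (some (Sum.inr l) : Option TD) = none from he) (by simp)
    · have := hnd he
      subst this
      rw [off_mem] at hl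
      exact absurd hl.2 (by simp)
  choose G hG using fun x => hN (K x) (U x) (hK x) (hU x) (hKU x)
  have hinj : Function.Injective fun x => (⟨G x, (hG x).1, (hG x).2.1⟩ :
      {t : Set (Set (NSp (fanF brF))) // t.Finite ∧ t ⊆ 𝒩}) := by
    intro x y hxy
    by_contra hne
    have hxy' : G x = G y := congrArg Subtype.val hxy
    have hex : ∃ n, x n ≠ y n := by
      by_contra hcon
      push Not at hcon
      exact hne (funext hcon)
    classical
    let n := Nat.find hex
    have hn : x n ≠ y n := Nat.find_spec hex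
    have hlt : ∀ i < n, x i = y i := fun i hi => not_not.1 (Nat.find_min hex hi)
    have h1 : nd (off x n) ∈ K x := Or.inr ⟨n, rfl⟩
    have h2 : nd (off x n) ∈ ⋃₀ G x := (hG x).2.2.1 h1
    rw [hxy'] at h2
    have h3 : nd (off x n) ∈ U y := (hG y).2.2.2 h2
    refine h3 ⟨off x n, ?_, rfl⟩
    rw [off_mem]
    refine ⟨hlt, ?_⟩
    cases hx : x n <;> cases hy : y n <;> simp_all
  have hcc : Countable {t : Set (Set (NSp (fanF brF))) // t.Finite ∧ t ⊆ 𝒩} :=
    (Set.Countable.to_subtype (Set.countable_ofPred_finite_subset hc))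
  have hcB : Countable (ℕ → Bool) := hinj.countable
  have hcS : Countable (Set ℕ) := by
    have : Function.Injective fun (s : Set ℕ) (n : ℕ) => (Classical.propDecidable (n ∈ s)).decide := by
      intro s s' h
      ext n
      have := congrFun h n
      simpa using this
    exact this.countable
  obtain ⟨f, hf⟩ := hcS.exists_injective_nat
  exact Function.cantor_injective f hf

/-- Closed sets describing convergence along the branch filter. -/
def BB (k r : ℕ) : Set (List Bool → ℝ) :=
  {f | ∃ x : ℕ → (ℕ → Bool), ∀ d, (∀ i < r, d ∉ Br (x i)) → |f d| ≤ 1 / ((k : ℝ) + 1)}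

theorem BB_mono (k r r' : ℕ) (h : r ≤ r') : BB k r ⊆ BB k r' := by
  rintro f ⟨x, hx⟩
  exact ⟨x, fun d hd => hx d fun i hi => hd i (hi.trans_le h)⟩

theorem isClosed_BB (k r : ℕ) : IsClosed (BB k r) := by
  have h1 : BB k r = Prod.fst '' {p : (List Bool → ℝ) × (ℕ → (ℕ → Bool)) |
      ∀ d, (∀ i < r, d ∉ Br (p.2 i)) → |p.1 d| ≤ 1 / ((k : ℝ) + 1)} := by
    ext f
    constructor
    · rintro ⟨x, hx⟩
      exact ⟨(f, x), hx, rfl⟩
    · rintro ⟨⟨f', x⟩, hx, rfl⟩
      exact ⟨x, hx⟩
  rw [h1]
  refine isClosedMap_fst_of_compactSpace _ ?_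
  have hopen : ∀ (d : List Bool) (i : ℕ),
      IsClopen {p : (List Bool → ℝ) × (ℕ → (ℕ → Bool)) | d ∈ Br (p.2 i)} := by
    intro d i
    have h2 : {p : (List Bool → ℝ) × (ℕ → (ℕ → Bool)) | d ∈ Br (p.2 i)} =
        ⋂ j : Fin d.length, {p | d[(j : ℕ)] = p.2 i j} := by
      ext p
      simp only [Set.mem_iInter, Set.mem_ofPred_eq, Br]
      exact ⟨fun h j => h j j.2, fun h j hj => h ⟨j, hj⟩⟩
    rw [h2]
    refine isClopen_iInter_of_finite fun j => ?_
    have h3 : Continuous fun p : (List Bool → ℝ) × (ℕ → (ℕ → Bool)) => p.2 i j := by fun_prop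
    exact (isClopen_discrete {b : Bool | d[(j : ℕ)] = b}).preimage h3
  have h4 : {p : (List Bool → ℝ) × (ℕ → (ℕ → Bool)) |
      ∀ d, (∀ i < r, d ∉ Br (p.2 i)) → |p.1 d| ≤ 1 / ((k : ℝ) + 1)} =
      ⋂ d : List Bool, ((⋃ i : Fin r, {p | d ∈ Br (p.2 i)}) ∪
        {p | |p.1 d| ≤ 1 / ((k : ℝ) + 1)}) := by
    ext p
    simp only [Set.mem_iInter, Set.mem_union, Set.mem_iUnion, Set.mem_ofPred_eq]
    refine forall_congr' fun d => ?_
    constructor
    · intro h
      by_cases hd : ∃ i : Fin r, d ∈ Br (p.2 i)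
      · exact Or.inl hd
      · push Not at hd
        exact Or.inr (h fun i hi => hd ⟨i, hi⟩)
    · rintro (⟨i, hi⟩ | h) hd
      · exact absurd hi (hd i i.2)
      · exact h
  rw [h4]
  refine isClosed_iInter fun d => IsClosed.union ?_ ?_
  · exact isClosed_iUnion_of_finite fun i => (hopen d i).1
  · have h5 : Continuous fun p : (List Bool → ℝ) × (ℕ → (ℕ → Bool)) => |p.1 d| := by fun_prop
    exact isClosed_le h5 continuous_const

theorem tendsto_iff_abs {D : Type} (F : Filter D) (g : D → ℝ) :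
    Tendsto g F (𝓝 0) ↔ ∀ k : ℕ, ∀ᶠ d in F, |g d| ≤ 1 / ((k : ℝ) + 1) := by
  constructor
  · intro h k
    have := (Metric.tendsto_nhds.1 h) (1 / ((k : ℝ) + 1)) (by positivity)
    filter_upwards [this] with d hd
    rw [Real.dist_eq, sub_zero] at hd
    exact hd.le
  · intro h
    rw [Metric.tendsto_nhds]
    intro ε hε
    obtain ⟨k, hk⟩ := exists_nat_one_div_lt hε
    filter_upwards [h k] with d hd
    rw [Real.dist_eq, sub_zero]
    exact hd.trans_lt hk

theorem tendsto_brF_iff (g : List Bool → ℝ) :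
    Tendsto g brF (𝓝 0) ↔ ∀ k, ∃ r, g ∈ BB k r := by
  rw [tendsto_iff_abs]
  refine forall_congr' fun k => ?_
  constructor
  · intro h
    obtain ⟨t, ht, hsub⟩ := h
    obtain ⟨r, x, hx⟩ : ∃ (r : ℕ) (x : ℕ → (ℕ → Bool)), ∀ y ∈ t, ∃ i < r, x i = y := by
      refine ⟨ht.toFinset.toList.length, fun i => ht.toFinset.toList.getD i (fun _ => false),
        fun y hy => ?_⟩
      have : y ∈ ht.toFinset.toList := by simpa using hy
      obtain ⟨i, hi, he⟩ := List.getElem_of_mem this
      exact ⟨i, hi, (List.getD_eq_getElem _ _ hi).trans he⟩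
    refine ⟨r, x, fun d hd => hsub d fun y hy hmem => ?_⟩
    obtain ⟨i, hi, rfl⟩ := hx y hy
    exact hd i hi hmem
  · rintro ⟨r, x, hx⟩
    refine ⟨x '' Set.Iio r, (Set.finite_Iio r).image _, fun l hl => hx l fun i hi => ?_⟩
    exact hl (x i) ⟨i, hi, rfl⟩

end Pool.Agent.AtEq
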